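import Pool.Agent.Helper41.KW.Triple

/-!
# A checker for the impossibility of three or more symbols
-/

set_option autoImplicit false

open Finset

namespace Pool.Agent.Helper41.KW

/-- A window: the previous symbol and some signed symbols. -/
structure Win where
  /-- the symbol before the digits -/
  prev : ℕ
  /-- the digits -/
  dig : List (ℕ × Bool)

/-- the sign of a Boolean -/
def bs (b : Bool) : ℤ := if b then 1 else -1

/-- the sign of a symbol in a mask -/
def sm (k c : ℕ) : ℤ := if k.testBit c then 1 else -1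

/-- the value of the digits -/
def val (k : ℕ) : List (ℕ × Bool) → ℤ
  | [] => 0
  | (c, b) :: l => 2 ^ l.length * (sm k c * bs b) + val k l

/-- the windows beginning later -/
def Win.drop (A : Win) : ℕ → Win
  | 0 => A
  | n + 1 => match A.dig with
    | [] => A
    | (c, _) :: l => Win.drop ⟨c, l⟩ n

/-- the class of masks for a pair -/
def cls (i j : ℕ) (t : Bool) (k : ℕ) : Bool :=
  k.testBit i && (i == j || (k.testBit j == t))

/-- the scaled sum for a pair -/
def sum2 (A B : Win) (e : ℤ) (k : ℕ) : ℤ :=
  2 ^ B.dig.length * val k A.dig + e * (2 ^ A.dig.length * val k B.dig)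

/-- the error for a pair -/
def err2 (A B : Win) : ℤ := 2 ^ A.dig.length + 2 ^ B.dig.length

/-- a contradiction to the rule for pairs -/
def leaf2 (A B : Win) (e : ℤ) (t : Bool) : Bool :=
  let L := masks.filter (cls A.prev B.prev t)
  L.all (fun k => decide (err2 A B ≤ sum2 A B e k) || decide (sum2 A B e k ≤ -err2 A B)) &&
    L.countP (fun k => decide (sum2 A B e k ≤ -err2 A B)) % 2 == 1 && L.length % 2 == 0

/-- the scaled sum for a triple -/
def sum3 (A B D : Win) (e1 e2 e3 : ℤ) (k : ℕ) : ℤ :=
  e1 * (2 ^ (B.dig.length + D.dig.length) * val k A.dig) +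
  e2 * (2 ^ (A.dig.length + D.dig.length) * val k B.dig) +
  e3 * (2 ^ (A.dig.length + B.dig.length) * val k D.dig)

/-- the error for a triple -/
def err3 (A B D : Win) : ℤ :=
  2 ^ (B.dig.length + D.dig.length) + 2 ^ (A.dig.length + D.dig.length) +
    2 ^ (A.dig.length + B.dig.length)

/-- the threshold for a triple -/
def thr3 (A B D : Win) : ℤ := 2 ^ (A.dig.length + B.dig.length + D.dig.length)

/-- are the symbols distinct? -/
def dist3 (i j l : ℕ) : Bool := (i != j) && (j != l) && (i != l)

/-- a contradiction to the rule for triples -/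
def leaf3 (A B D : Win) (e1 e2 e3 : ℤ) : Bool :=
  let L := masks.filter fun k => decide (sm k A.prev * sm k B.prev * sm k D.prev = -1)
  L.all (fun k => decide (thr3 A B D + err3 A B D ≤ sum3 A B D e1 e2 e3 k) ||
      decide (sum3 A B D e1 e2 e3 k ≤ thr3 A B D - err3 A B D)) &&
    L.any (fun k => decide (thr3 A B D + err3 A B D ≤ sum3 A B D e1 e2 e3 k) ||
      (decide (sum3 A B D e1 e2 e3 k ≤ thr3 A B D - err3 A B D) &&
        decide (-thr3 A B D + err3 A B D ≤ sum3 A B D e1 e2 e3 k)) ||
      decide (sum3 A B D e1 e2 e3 k ≤ -thr3 A B D - err3 A B D)) &&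
    L.countP (fun k => decide (thr3 A B D + err3 A B D ≤ sum3 A B D e1 e2 e3 k)) % 2 !=
      (if dist3 A.prev B.prev D.prev then 1 else 0)

/-- a sign from a number -/
def sn (n : ℕ) : ℤ := if n % 2 = 0 then 1 else -1

/-- the check of a leaf -/
def leaf (st : List Win) (x : ℕ) : Bool :=
  if x % 5 = 0 then
    match st[x / 5 / 2048]?, st[x / 5 / 32 % 8]? with
    | some A, some B => leaf2 (A.drop (x / 5 / 256 % 8)) (B.drop (x / 5 / 4 % 8))
        (sn (x / 5 / 2)) (x / 5 % 2 == 0)
    | _, _ => false
  else
    match st[x / 5 / 262144]?, st[x / 5 / 4096 % 8]?, st[x / 5 / 64 % 8]? with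
    | some A, some B, some D => leaf3 (A.drop (x / 5 / 32768 % 8)) (B.drop (x / 5 / 512 % 8))
        (D.drop (x / 5 / 8 % 8)) (sn (x / 5 / 4)) (sn (x / 5 / 2)) (sn (x / 5))
    | _, _, _ => false

/-- the last symbol -/
def last (A : Win) : ℕ := (A.dig.getLast?.map Prod.fst).getD A.prev

/-- forward extension -/
def fwd (A : Win) (c : ℕ) (b : Bool) : Win := ⟨A.prev, A.dig ++ [(c, b)]⟩

/-- backward extension -/
def bwd (A : Win) (c : ℕ) (b : Bool) : Win := ⟨c, (A.prev, b) :: A.dig⟩

/-- the tree -/
def go (m : ℕ) : ℕ → List Win → List ℕ → Option (List ℕ)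
  | 0, _, _ => none
  | _ + 1, _, [] => none
  | n + 1, st, x :: xs =>
    if x % 5 < 2 then
      if leaf st x then some xs else none
    else if x % 5 = 2 then
      match st[x / 5]? with
      | none => none
      | some A =>
        let c := last A
        (go m n (st.set (x / 5) (fwd A c true)) xs).bind fun xs =>
        (go m n (st.set (x / 5) (fwd A c false)) xs).bind fun xs =>
        (go m n (st.set (x / 5) (fwd A ((c + 1) % m) true)) xs).bind fun xs =>
        go m n (st.set (x / 5) (fwd A ((c + 1) % m) false)) xs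
    else if x % 5 = 3 then
      match st[x / 5]? with
      | none => none
      | some A =>
        (go m n (st.set (x / 5) (bwd A A.prev true)) xs).bind fun xs =>
        (go m n (st.set (x / 5) (bwd A A.prev false)) xs).bind fun xs =>
        (go m n (st.set (x / 5) (bwd A ((A.prev + m - 1) % m) true)) xs).bind fun xs =>
        go m n (st.set (x / 5) (bwd A ((A.prev + m - 1) % m) false)) xs
    else
      if x / 5 < m then go m n (st ++ [⟨x / 5, [((x / 5 + 1) % m, true)]⟩]) xs else none

def data3 : List ℕ := [4, 9, 7, 8, 1311116, 1311106, 10420, 10420, 14, 12, 20650, 2, 330, 21151,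
  330, 335, 20650, 20655, 3, 175, 160, 165, 170, 3, 165, 170, 170, 165]

theorem go3 : go 3 8 [] data3 = some [] := by decide +kernel

end Pool.Agent.Helper41.KW
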