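import Pool.Agent.Helper41.KW.Main
import Pool.Agent.Helper79.KC.Bridge

/-!
# The classification for all odd primes
-/

set_option autoImplicit false

namespace Pool.Agent.Helper41.KW

open Pool.Agent.Helper73.QC Pool.Agent.Helper79.KM Pool.Agent.Helper40.KM

/-- Let `r` be an odd prime and `a` a vector with no zero residue.  Either the height of some
multiple of `a` is even, or `a` is in one of the fifteen planes. -/
theorem classify_all {r : ℕ} [Fact r.Prime] (hr2 : r ≠ 2) (a : Fin 5 → ZMod r)
    (ha : ∀ i, residues a i ≠ 0) :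
    (∃ h : (ZMod r)ˣ, Even (height fun i => (h : ZMod r) * a i)) ∨
      ∃ s t, s ≠ 0 ∧ t ≠ 0 ∧ Permuted (planeVec s t) a :=
  Pool.Agent.Helper79.KC.classify_of hr2 Word.two a ha

end Pool.Agent.Helper41.KW
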