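import Pool.Agent.Helper41.KW.Sound3

/-!
# The cyclic structure of the symbols
-/

set_option autoImplicit false

open Finset

namespace Pool.Agent.Helper41.KW

theorem comp_mem (π : Equiv.Perm (Fin 6)) (w : Fin 6 → Bool) : w ∘ π ∈ C ↔ w ∈ C := by
  have h : (Finset.univ.filter fun a => (w ∘ π) a = true).card =
      (Finset.univ.filter fun a => w a = true).card := by
    refine Finset.card_bij (fun a _ => π a) ?_ ?_ ?_
    · intro a ha
      simpa using ha
    · intro a _ b _ hab
      exact π.injective hab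
    · intro b hb
      exact ⟨π.symm b, by simpa using hb, by simp⟩
  simp only [C, mem_filter, mem_univ, true_and]
  rw [← h]

theorem card_comp (π : Equiv.Perm (Fin 6)) (P : (Fin 6 → Bool) → Prop) [DecidablePred P] :
    (C.filter fun w => P (w ∘ π)).card = (C.filter P).card := by
  refine Finset.card_bij (fun w _ => w ∘ π) ?_ ?_ ?_
  · intro w hw
    rw [mem_filter] at hw ⊢
    exact ⟨(comp_mem π w).2 hw.1, hw.2⟩
  · intro w _ w' _ h
    funext a
    have := congrFun h (π.symm a)
    simpa using this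
  · intro w hw
    rw [mem_filter] at hw
    have e : (w ∘ π.symm) ∘ π = w := by
      funext a
      simp
    refine ⟨w ∘ π.symm, ?_, e⟩
    rw [mem_filter, ← comp_mem π, e]
    exact hw

/-- permutation of the symbols -/
def Word.relabel (W : Word) (π : Equiv.Perm (Fin 6)) : Word where
  M := W.M
  s := W.s
  i n := π (W.i n)
  Y n w := W.Y n (w ∘ π)
  d := W.d
  hs := W.hs
  hd := W.hd
  per n := by rw [W.per]
  anti n w := W.anti n (w ∘ π)
  bd n w hw := W.bd n _ ((comp_mem π w).2 hw)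
  step n w hw := W.step n _ ((comp_mem π w).2 hw)
  pair x p q e he := by
    have h := W.pair (π.symm x) p q e he
    rw [← card_comp π] at h
    convert h using 6
    simp
  trip p q t e e' he he' := by
    have h := W.trip p q t e e' he he'
    rw [← card_comp π] at h
    exact h
  nz p q t e e' he he' h w hw := by
    obtain ⟨w', hw', h'⟩ := h
    exact W.nz p q t e e' he he' ⟨_, (comp_mem π w').2 hw', h'⟩ _ ((comp_mem π w).2 hw)

theorem card_pred (a b c : Fin 6) (h1 : a ≠ b) (h2 : b ≠ c) (h3 : a ≠ c) (x : Bool) :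
    (C.filter fun w => (w a = true ∧ w b = true) ∧ w c = x).card % 2 = 1 := by
  rw [card_filter]
  revert a b c x
  decide +kernel

namespace Word

variable (W : Word)

/-- every symbol has at most one predecessor other than itself -/
theorem pred_unique (p q : ℕ) (h1 : W.i p ≠ W.i (p + 1)) (h2 : W.i q ≠ W.i (q + 1))
    (h : W.i (p + 1) = W.i (q + 1)) : W.i p = W.i q := by
  by_contra h3
  have he : W.s (p + 1) * W.s (q + 1) = 1 ∨ W.s (p + 1) * W.s (q + 1) = -1 :=
    mul_pm (W.hs _) (W.hs _)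
  have hr := (W.pair_rule p q h3 _ he).1
  have hc : ∀ w ∈ C, (W.Y (p + 1) w + W.s (p + 1) * W.s (q + 1) * W.Y (q + 1) w < 0) ↔
      w (W.i (p + 1)) = decide (W.s (p + 1) = -1) := by
    intro w hw
    have s1 := W.step (p + 1) w hw
    have s2 := W.step (q + 1) w hw
    have b1 := abs_lt.1 (W.bd (p + 1 + 1) w hw)
    have b2 := abs_lt.1 (W.bd (q + 1 + 1) w hw)
    rw [← h] at s2
    rcases hx : w (W.i (p + 1)) with _ | _ <;> rw [sg, hx] at s1 s2 <;>
      rcases W.hs (p + 1) with h5 | h5 <;> rcases W.hs (q + 1) with h6 | h6 <;>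
      rw [h5] at s1 ⊢ <;> rw [h6] at s2 ⊢ <;> norm_num at s1 s2 ⊢ <;> omega
  have e : (C.filter fun w => (w (W.i p) = true ∧ w (W.i q) = true) ∧
      W.Y (p + 1) w + W.s (p + 1) * W.s (q + 1) * W.Y (q + 1) w < 0) =
      (C.filter fun w => (w (W.i p) = true ∧ w (W.i q) = true) ∧
        w (W.i (p + 1)) = decide (W.s (p + 1) = -1)) := by
    ext w
    simp only [mem_filter]
    refine and_congr_right fun hw => and_congr_right fun _ => hc w hw
  rw [e] at hr
  have := card_pred (W.i p) (W.i q) (W.i (p + 1)) h3 (by rw [h]; exact h2) h1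
    (decide (W.s (p + 1) = -1))
  obtain ⟨x, hx⟩ := hr
  omega

/-- sets which agree on the symbols have the same remainders -/
theorem eq_of_agree {w w' : Fin 6 → Bool} (hw : w ∈ C) (hw' : w' ∈ C)
    (h : ∀ n, w (W.i n) = w' (W.i n)) (n : ℕ) : W.Y n w = W.Y n w' := by
  have key : ∀ k : ℕ, 2 ^ k * (W.Y n w - W.Y n w') = W.Y (n + k) w - W.Y (n + k) w' := by
    intro k
    induction k with
    | zero => simp
    | succ k ih =>
      have s1 := W.step (n + k) w hw
      have s2 := W.step (n + k) w' hw'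
      have e : sg w (W.i (n + k)) = sg w' (W.i (n + k)) := by simp only [sg, h]
      rw [e] at s1
      calc (2 : ℤ) ^ (k + 1) * (W.Y n w - W.Y n w') = 2 * (2 ^ k * (W.Y n w - W.Y n w')) := by ring
        _ = 2 * W.Y (n + k) w - 2 * W.Y (n + k) w' := by rw [ih]; ring
        _ = _ := by rw [s1, s2, ← add_assoc]; ring
  by_contra h1
  have hne : W.Y n w - W.Y n w' ≠ 0 := sub_ne_zero.2 h1
  have h2 := key (2 * W.M).toNat
  have b1 := abs_lt.1 (W.bd (n + (2 * W.M).toNat) w hw)
  have b2 := abs_lt.1 (W.bd (n + (2 * W.M).toNat) w' hw')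
  have h3 : 2 * W.M < 2 ^ (2 * W.M).toNat := by
    have h4 : (2 * W.M).toNat < 2 ^ (2 * W.M).toNat := Nat.lt_two_pow_self
    have h5 := W.M_pos
    have h6 : ((2 * W.M).toNat : ℤ) = 2 * W.M := Int.toNat_of_nonneg (by omega)
    calc 2 * W.M = ((2 * W.M).toNat : ℤ) := h6.symm
      _ < ((2 ^ (2 * W.M).toNat : ℕ) : ℤ) := by exact_mod_cast h4
      _ = _ := by push_cast; rfl
  have h7 : |W.Y (n + (2 * W.M).toNat) w - W.Y (n + (2 * W.M).toNat) w'| < 2 * W.M := by
    rw [abs_lt]
    constructor <;> linarith [b1.1, b1.2, b2.1, b2.2]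
  rw [← h2, abs_mul, abs_of_pos (by positivity)] at h7
  have h8 : 1 ≤ |W.Y n w - W.Y n w'| := Int.one_le_abs hne
  have h9 : (2 : ℤ) ^ (2 * W.M).toNat * 1 ≤ 2 ^ (2 * W.M).toNat * |W.Y n w - W.Y n w'| :=
    mul_le_mul_of_nonneg_left h8 (by positivity)
  linarith

/-- four symbols are impossible -/
theorem not_four (h : W.Cyc 4) : False := by
  obtain ⟨c1, c2, c3⟩ := h
  obtain ⟨p, -, p1, p2⟩ := c3 0 (by norm_num) 0
  obtain ⟨q, -, q1, q2⟩ := c3 2 (by norm_num) 0
  norm_num at p2 q2
  have ip : W.i p = 0 := Fin.ext p1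
  have iq : W.i q = 2 := Fin.ext q1
  have ip' : W.i (p + 1) = 1 := Fin.ext p2
  have iq' : W.i (q + 1) = 3 := Fin.ext q2
  have he : -(W.s (p + 1) * W.s (q + 1)) = 1 ∨ -(W.s (p + 1) * W.s (q + 1)) = -1 := by
    rcases mul_pm (W.hs (p + 1)) (W.hs (q + 1)) with h | h <;> rw [h] <;> norm_num
  have hr := (W.pair_rule p q (by rw [ip, iq]; decide) _ he).1
  rw [ip, iq, card_filter] at hr
  have e : ∀ n, W.Y n (ofMask 21) = W.Y n (ofMask 37) := by
    intro n
    refine W.eq_of_agree (by decide +kernel) (by decide +kernel) ?_ n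
    intro n
    have h1 := c1 n
    generalize W.i n = x at h1
    revert x
    decide +kernel
  have s1 := W.step (p + 1) (ofMask 7) (by decide +kernel)
  have s2 := W.step (q + 1) (ofMask 7) (by decide +kernel)
  have s3 := W.step (p + 1) (ofMask 13) (by decide +kernel)
  have s4 := W.step (q + 1) (ofMask 13) (by decide +kernel)
  rw [ip'] at s1 s3
  rw [iq'] at s2 s4
  have b1 := abs_lt.1 (W.bd (p + 1 + 1) (ofMask 7) (by decide +kernel))
  have b2 := abs_lt.1 (W.bd (q + 1 + 1) (ofMask 7) (by decide +kernel))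
  have b3 := abs_lt.1 (W.bd (p + 1 + 1) (ofMask 13) (by decide +kernel))
  have b4 := abs_lt.1 (W.bd (q + 1 + 1) (ofMask 13) (by decide +kernel))
  have g1 : sg (ofMask 7) 1 = 1 := by decide +kernel
  have g2 : sg (ofMask 7) 3 = -1 := by decide +kernel
  have g3 : sg (ofMask 13) 1 = -1 := by decide +kernel
  have g4 : sg (ofMask 13) 3 = 1 := by decide +kernel
  rw [g1] at s1
  rw [g2] at s2
  rw [g3] at s3
  rw [g4] at s4
  have key : (masks.countP fun k => decide (((ofMask k) 0 = true ∧ (ofMask k) 2 = true) ∧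
      W.Y (p + 1) (ofMask k) + -(W.s (p + 1) * W.s (q + 1)) * W.Y (q + 1) (ofMask k) < 0)) =
      ([7, 13, 21, 37].countP fun k => decide (W.Y (p + 1) (ofMask k) +
        -(W.s (p + 1) * W.s (q + 1)) * W.Y (q + 1) (ofMask k) < 0)) := by
    have : [7, 13, 21, 37] = masks.filter fun k => (ofMask k) 0 && (ofMask k) 2 := by
      decide +kernel
    rw [this, List.countP_filter]
    congr 1
    funext k
    rcases h1 : ofMask k 0 with _ | _ <;> rcases h2 : ofMask k 2 with _ | _ <;> simp
  rw [key] at hr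
  simp only [List.countP_cons, List.countP_nil, e, decide_eq_true_eq] at hr
  by_cases h5 : W.Y (p + 1) (ofMask 37) +
      -(W.s (p + 1) * W.s (q + 1)) * W.Y (q + 1) (ofMask 37) < 0
  · rw [if_pos h5] at hr
    rcases W.hs (p + 1) with h6 | h6 <;> rcases W.hs (q + 1) with h7 | h7 <;>
      rw [h6, h7] at hr <;> rw [h6] at s1 s3 <;> rw [h7] at s2 s4 <;>
      obtain ⟨x, hx⟩ := hr <;> split_ifs at hx <;> omega
  · rw [if_neg h5] at hr
    rcases W.hs (p + 1) with h6 | h6 <;> rcases W.hs (q + 1) with h7 | h7 <;>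
      rw [h6, h7] at hr <;> rw [h6] at s1 s3 <;> rw [h7] at s2 s4 <;>
      obtain ⟨x, hx⟩ := hr <;> split_ifs at hx <;> omega

end Word

end Pool.Agent.Helper41.KW
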