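import Pool.Agent.Helper41.KW.Cyclic

/-!
# A word has at most two symbols
-/

set_option autoImplicit false

open Finset Function

namespace Pool.Agent.Helper41.KW

/-- the tree for 5 symbols -/
def data5 : List ℕ := [19, 14, 9, 24, 4, 17, 18, 3933196, 3933186, 31220, 31220, 22, 41450, 2,
  650, 62756, 12, 20495, 2684196, 2622721, 20975, 650, 7, 10730, 2, 170, 21476, 21761, 170,
  1373441, 10730, 41450, 7, 10735, 7, 8, 1336991, 1336996, 10440, 10440, 18, 3932491, 3932481,
  30880, 30895, 17, 31220, 30890, 30880, 30890, 12, 20660, 2642301, 20660, 2645451, 8, 12, 20970,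
  2645441, 2642316, 20650, 12, 20970, 2645441, 20640, 2642301, 17, 31220, 30885, 3953016,
  3956211, 18, 30880, 30895, 3953666, 3953021, 12, 20970, 20650, 2642886, 20650, 2, 3, 2916, 480,
  20, 20, 490, 12, 20495, 20970, 2622421, 22, 40970, 41290, 5243531, 41290, 490]

/-- the tree for 6 symbols -/
def data6 : List ℕ := [4, 9, 14, 19, 24, 7, 8, 1311116, 1311106, 10420, 10420, 12, 20650, 12,
  2642636, 8, 1311386, 1311396, 10570, 10570, 8, 1311371, 1311361, 10575, 10560, 2642611, 12,
  20820, 7, 1334476, 10570, 10560, 10570, 2, 335, 2, 335, 330, 330, 21121, 2, 20, 335, 335, 330,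
  355, 21935, 20650, 13, 2642316, 20640, 29, 22, 41135, 22, 7, 10420, 1335041, 1393961, 12170, 7,
  10420, 10890, 10880, 10890, 8, 10895, 10895, 10890, 10880, 7, 10420, 10890, 10880, 10890, 7,
  10420, 7, 10440, 1335046, 1335041, 10440, 22, 41620, 5264691, 7, 10425, 12175, 12175, 12170,
  41125, 22, 41620, 42435, 41125, 8, 10895, 10440, 10890, 10880, 41135, 22, 41135, 41285, 41295,
  41135, 2, 7, 11530, 10420, 10420, 11525, 170, 8, 1310796, 10240, 12, 20490, 12, 20650, 20640,
  20640, 2642626, 12, 20820, 20650, 20650, 21775, 20670, 10420, 170]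

theorem go5 : go 5 12 [] data5 = some [] := by decide +kernel

theorem go6 : go 6 15 [] data6 = some [] := by decide +kernel

/-- The symbols of a periodic sequence in which every symbol has a unique predecessor. -/
theorem structure_of_pred (i : ℕ → Fin 6) (d : ℕ) (hd : 0 < d) (per : ∀ n, i (n + d) = i n)
    (hp : ∀ p q, i p ≠ i (p + 1) → i q ≠ i (q + 1) → i (p + 1) = i (q + 1) → i p = i q) :
    (∃ a b, ∀ n, i n = a ∨ i n = b) ∨
    ∃ (m : ℕ) (π : Equiv.Perm (Fin 6)), 3 ≤ m ∧ m ≤ 6 ∧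
      (∀ n, (π (i n) : ℕ) < m) ∧
      (∀ n, (π (i (n + 1)) : ℕ) = π (i n) ∨ (π (i (n + 1)) : ℕ) = (π (i n) + 1) % m) ∧
      (∀ k, k < m → ∀ N, ∃ p, N ≤ p ∧ (π (i p) : ℕ) = k ∧
        (π (i (p + 1)) : ℕ) = (k + 1) % m) := by
  classical
  have perK : ∀ K n, i (n + K * d) = i n := by
    intro K
    induction K with
    | zero => simp
    | succ K ih =>
      intro n
      rw [Nat.succ_mul, ← add_assoc, per, ih]
  by_cases hconst : ∀ n, i n = i (n + 1)
  · left
    refine ⟨i 0, i 0, fun n => Or.inl ?_⟩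
    induction n with
    | zero => rfl
    | succ n ih => rw [← hconst n, ih]
  push Not at hconst
  obtain ⟨p0, hp0⟩ := hconst
  -- the predecessor function
  obtain ⟨f, hf, hf'⟩ : ∃ f : Fin 6 → Fin 6,
      (∀ p, i p ≠ i (p + 1) → f (i (p + 1)) = i p) ∧
      (∀ c, f c ≠ c → ∃ p, i p ≠ i (p + 1) ∧ i (p + 1) = c) := by
    refine ⟨fun c => if h : ∃ p, i p ≠ i (p + 1) ∧ i (p + 1) = c then i h.choose else c, ?_, ?_⟩
    · intro p h
      have h1 : ∃ q, i q ≠ i (q + 1) ∧ i (q + 1) = i (p + 1) := ⟨p, h, rfl⟩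
      simp only [dif_pos h1]
      exact hp _ _ h1.choose_spec.1 h h1.choose_spec.2
    · intro c h
      by_contra h1
      apply h
      simp only [dif_neg h1]
  have horb : ∀ k n, ∃ j, f^[j] (i (n + k)) = i n := by
    intro k
    induction k with
    | zero => exact fun n => ⟨0, rfl⟩
    | succ k ih =>
      intro n
      obtain ⟨j, hj⟩ := ih n
      by_cases h : i (n + k) = i (n + k + 1)
      · exact ⟨j, by rw [← hj, ← add_assoc, ← h]⟩
      · exact ⟨j + 1, by rw [← hj, ← add_assoc, iterate_succ_apply, hf _ h]⟩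
  have horb' : ∀ n n', ∃ j, f^[j] (i n) = i n' := by
    intro n n'
    obtain ⟨k, hk⟩ : ∃ k, n + n' * d = n' + k := by
      have : n' * 1 ≤ n' * d := Nat.mul_le_mul_left _ hd
      exact ⟨n + n' * d - n', by omega⟩
    obtain ⟨j, hj⟩ := horb k n'
    rw [← hk, perK] at hj
    exact ⟨j, hj⟩
  set c0 := i (p0 + 1) with hc0
  have hfc : f c0 = i p0 := hf _ hp0
  have hne : f c0 ≠ c0 := by rw [hfc]; exact hp0
  have hperiodic : c0 ∈ periodicPts f := by
    obtain ⟨j, hj⟩ := horb' p0 (p0 + 1)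
    rw [← hfc, ← iterate_succ_apply] at hj
    exact mk_mem_periodicPts (Nat.succ_pos j) hj
  set m := minimalPeriod f c0 with hm
  have hm0 : 0 < m := minimalPeriod_pos_of_mem_periodicPts hperiodic
  have hm1 : m ≠ 1 := by
    intro h
    apply hne
    have := isPeriodicPt_minimalPeriod f c0
    rw [← hm, h] at this
    exact this
  have hinj : ∀ a b, a < m → b < m → f^[a] c0 = f^[b] c0 → a = b :=
    fun a b ha hb h => iterate_injOn_Iio_minimalPeriod ha hb h
  have hmod : ∀ j, f^[j % m] c0 = f^[j] c0 := fun j => iterate_mod_minimalPeriod_eq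
  -- the labels
  set σ : Fin m → Fin 6 := fun l => f^[m - l] c0 with hσ
  have hσinj : Injective σ := by
    intro a b h
    simp only [hσ] at h
    rw [← hmod, ← hmod (m - b)] at h
    have h1 := hinj _ _ (Nat.mod_lt _ hm0) (Nat.mod_lt _ hm0) h
    have ha := a.2
    have hb := b.2
    apply Fin.ext
    rcases Nat.eq_zero_or_pos (a : ℕ) with h2 | h2 <;>
      rcases Nat.eq_zero_or_pos (b : ℕ) with h3 | h3
    · omega
    · rw [h2, Nat.sub_zero, Nat.mod_self, Nat.mod_eq_of_lt (by omega)] at h1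
      omega
    · rw [h3, Nat.sub_zero, Nat.mod_self, Nat.mod_eq_of_lt (by omega)] at h1
      omega
    · rw [Nat.mod_eq_of_lt (by omega), Nat.mod_eq_of_lt (by omega)] at h1
      omega
  have hm6 : m ≤ 6 := by
    have := Fintype.card_le_of_injective σ hσinj
    simpa using this
  have hsucc : ∀ (l : ℕ) (hl : l < m), f (σ ⟨(l + 1) % m, Nat.mod_lt _ hm0⟩) = σ ⟨l, hl⟩ := by
    intro l hl
    simp only [hσ]
    rw [← iterate_succ_apply' f]
    rcases Nat.lt_or_ge (l + 1) m with h | h
    · rw [Nat.mod_eq_of_lt h]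
      congr 1
      congr 1
      omega
    · have h1 : l + 1 = m := by omega
      have h2 : (m - 0).succ = 1 + m := by omega
      have h3 : m - l = 1 := by omega
      have h4 : (m - 0).succ % m = (m - l) % m := by rw [h2, h3, Nat.add_mod_right]
      rw [h1, Nat.mod_self, ← hmod (m - 0).succ, ← hmod (m - l), h4]
  have hused : ∀ n, ∃ l : Fin m, i n = σ l := by
    intro n
    obtain ⟨j, hj⟩ := horb' (p0 + 1) n
    rw [← hc0, ← hmod] at hj
    have h1 := Nat.mod_lt j hm0
    rcases Nat.eq_zero_or_pos (j % m) with h2 | h2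
    · refine ⟨⟨0, hm0⟩, ?_⟩
      rw [← hj, h2]
      simp only [hσ]
      rw [Nat.sub_zero]
      exact (isPeriodicPt_minimalPeriod f c0).symm
    · refine ⟨⟨m - j % m, by omega⟩, ?_⟩
      rw [← hj]
      simp only [hσ]
      congr 1
      congr 1
      omega
  obtain ⟨π, hπ⟩ := Equiv.Perm.exists_extending_pair σ (Fin.castLE hm6) hσinj
    (Fin.castLE_injective hm6)
  have hπ' : ∀ l : Fin m, (π (σ l) : ℕ) = l := fun l => by rw [hπ]; rfl
  rcases Nat.lt_or_ge m 3 with h3 | h3
  · left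
    have h2 : m = 2 := by omega
    refine ⟨σ ⟨0, by omega⟩, σ ⟨1, by omega⟩, fun n => ?_⟩
    obtain ⟨l, hl⟩ := hused n
    rw [hl]
    rcases Nat.lt_or_ge (l : ℕ) 1 with h4 | h4
    · left
      congr 1
      apply Fin.ext
      change (l : ℕ) = 0
      omega
    · right
      congr 1
      apply Fin.ext
      change (l : ℕ) = 1
      have := l.2
      omega
  right
  refine ⟨m, π, h3, hm6, ?_, ?_, ?_⟩
  · intro n
    obtain ⟨l, hl⟩ := hused n
    rw [hl, hπ']
    exact l.2
  · intro n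
    by_cases h : i n = i (n + 1)
    · left
      rw [h]
    · right
      obtain ⟨l, hl⟩ := hused n
      obtain ⟨l', hl'⟩ := hused (n + 1)
      have h1 := hf n h
      have h2 := hsucc l l.2
      -- `l'` is the label after `l`
      obtain ⟨u, hu⟩ : ∃ u : Fin m, ((u : ℕ) + 1) % m = l' := by
        have h4 := l'.2
        rcases Nat.eq_zero_or_pos (l' : ℕ) with h5 | h5
        · refine ⟨⟨m - 1, by omega⟩, ?_⟩
          change (m - 1 + 1) % m = l'
          rw [Nat.sub_add_cancel hm0, Nat.mod_self, h5]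
        · refine ⟨⟨l' - 1, by omega⟩, ?_⟩
          change ((l' : ℕ) - 1 + 1) % m = l'
          rw [Nat.sub_add_cancel h5, Nat.mod_eq_of_lt h4]
      have h6 := hsucc u u.2
      have h7 : (⟨((u : ℕ) + 1) % m, Nat.mod_lt _ hm0⟩ : Fin m) = l' := Fin.ext hu
      rw [h7, ← hl', h1, hl] at h6
      have h8 : l = u := hσinj h6
      rw [hl, hl', hπ', hπ', h8, hu]
  · intro k hk N
    have h1 := hsucc k hk
    have h2 : f (σ ⟨(k + 1) % m, Nat.mod_lt _ hm0⟩) ≠ σ ⟨(k + 1) % m, Nat.mod_lt _ hm0⟩ := by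
      rw [h1]
      intro h3
      have h4 := congrArg Fin.val (hσinj h3)
      change k = (k + 1) % m at h4
      rcases Nat.lt_or_ge (k + 1) m with h5 | h5
      · rw [Nat.mod_eq_of_lt h5] at h4
        omega
      · have : k + 1 = m := by omega
        rw [this, Nat.mod_self] at h4
        omega
    obtain ⟨p, hp1, hp2⟩ := hf' _ h2
    have hp3 : i p = σ ⟨k, hk⟩ := by rw [← hf p hp1, hp2, h1]
    refine ⟨p + N * d, ?_, ?_, ?_⟩
    · have : N * 1 ≤ N * d := Nat.mul_le_mul_left _ hd
      omega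
    · rw [perK, hp3, hπ']
    · have e : p + N * d + 1 = p + 1 + N * d := by omega
      rw [e, perK, hp2, hπ']

/-- A word has at most two symbols. -/
theorem Word.two (W : Word) : ∃ a b, ∀ n, W.i n = a ∨ W.i n = b := by
  rcases structure_of_pred W.i W.d W.hd W.per (fun p q => W.pred_unique p q) with h | h
  · exact h
  exfalso
  obtain ⟨m, π, h3, h6, c1, c2, c3⟩ := h
  have hc : (W.relabel π).Cyc m := ⟨c1, c2, c3⟩
  have hm : m = 3 ∨ m = 4 ∨ m = 5 ∨ m = 6 := by omega
  rcases hm with rfl | rfl | rfl | rfl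
  · exact (W.relabel π).go_sound hc _ _ _ _ go3 (by simp)
  · exact (W.relabel π).not_four hc
  · exact (W.relabel π).go_sound hc _ _ _ _ go5 (by simp)
  · exact (W.relabel π).go_sound hc _ _ _ _ go6 (by simp)

end Pool.Agent.Helper41.KW
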