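import Pool.Agent.Helper44.KW.Defs
import Pool.Agent.Helper41.KD.Osc

/-!
# W3: the series of means of a sequence of functions
-/

set_option autoImplicit false

namespace Pool.Agent.Helper41.KW

open MeasureTheory Set Filter Topology Pool.Agent.Helper78.KD
open Pool.Agent.Helper44.KW (MvG)
open Pool.Agent.Helper41.KD (Fam.pow_le Fam.mvt)

variable {u v : ℕ → ℝ → ℝ} {a b β₁ β₂ C : ℝ} {X : ℕ → ℝ → ℝ}

/-- single terms -/
theorem term_le (hF : Fam u v a b β₁ β₂) (hC : 0 ≤ C)
    (hI : ∀ (n : ℕ) (p q : ℝ), a ≤ p → p ≤ q → q ≤ b → |∫ x in p..q, X n x| ≤ C / v n p)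
    {p q : ℝ} (hp : a ≤ p) (hpq : p ≤ q) (hq : q ≤ b) (n d : ℕ) :
    |∫ x in p..q, X (n + d) x| ≤ (1 / β₁) ^ d * (C / v n p) := by
  have hpm : p ∈ Icc a b := ⟨hp, hpq.trans hq⟩
  have h1 := hI (n + d) p q hp hpq hq
  have h2 := Fam.pow_le hF hpm n d
  have h3 := hF.pos n p hpm
  have hβ : 0 < β₁ := zero_lt_one.trans hF.hβ
  refine h1.trans ?_
  rw [one_div_pow, one_div_mul_eq_div, div_div, mul_comm (v n p)]
  exact div_le_div_of_nonneg_left hC (by positivity) h2

theorem summ_int (hF : Fam u v a b β₁ β₂) (hC : 0 ≤ C)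
    (hI : ∀ (n : ℕ) (p q : ℝ), a ≤ p → p ≤ q → q ≤ b → |∫ x in p..q, X n x| ≤ C / v n p)
    {p q : ℝ} (hp : a ≤ p) (hpq : p ≤ q) (hq : q ≤ b) : Summable (fun n : ℕ => ∫ x in p..q, X n x) := by
  have hβ : 1 < β₁ := hF.hβ
  have hs : Summable (fun d : ℕ => (1 / β₁) ^ d * (C / v 0 p)) :=
    (summable_geometric_of_lt_one (by positivity) ((div_lt_one (by linarith)).2 hβ)).mul_right _
  refine Summable.of_norm_bounded hs fun n => ?_
  have h := term_le hF hC hI hp hpq hq 0 n
  rw [zero_add] at h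
  exact h

theorem mul_MvG {p q : ℝ} (hpq : p < q) : (q - p) * MvG X p q = ∑' n : ℕ, ∫ x in p..q, X n x := by
  have h0 : q - p ≠ 0 := (sub_pos.2 hpq).ne'
  unfold MvG
  rw [← tsum_mul_left]
  refine tsum_congr fun n => ?_
  field_simp

theorem mvG_add (hF : Fam u v a b β₁ β₂) (hC : 0 ≤ C) (hX : ∀ n, ContinuousOn (X n) (Icc a b))
    (hI : ∀ (n : ℕ) (p q : ℝ), a ≤ p → p ≤ q → q ≤ b → |∫ x in p..q, X n x| ≤ C / v n p)
    (t : ℕ → ℝ) (m : ℕ) (ht : ∀ i < m, t i < t (i + 1)) (h0 : a ≤ t 0) (hm : t m ≤ b) (hm1 : 1 ≤ m) :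
    ∑ i ∈ Finset.range m, (t (i + 1) - t i) * MvG X (t i) (t (i + 1)) = (t m - t 0) * MvG X (t 0) (t m) := by
  have hmono : ∀ i j, i ≤ j → j ≤ m → t i ≤ t j := by
    intro i j hij
    induction hij with
    | refl => intro _; exact le_rfl
    | @step k _ ih =>
      intro hk
      exact (ih (by omega)).trans (ht k (by omega)).le
  have hlt : t 0 < t m := (ht 0 (by omega)).trans_le (hmono 1 m hm1 le_rfl)
  rw [mul_MvG hlt]
  have h1 : ∀ i ∈ Finset.range m, (t (i + 1) - t i) * MvG X (t i) (t (i + 1)) =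
      ∑' n : ℕ, ∫ x in (t i)..(t (i + 1)), X n x := fun i hi => mul_MvG (ht i (Finset.mem_range.1 hi))
  rw [Finset.sum_congr rfl h1, ← Summable.tsum_finsetSum]
  · refine tsum_congr fun n => ?_
    refine intervalIntegral.sum_integral_adjacent_intervals fun i hi => ?_
    have hi1 : a ≤ t i := h0.trans (hmono 0 i (Nat.zero_le _) (by omega))
    have hi2 : t (i + 1) ≤ b := (hmono (i + 1) m (by omega) le_rfl).trans hm
    refine ContinuousOn.intervalIntegrable ?_
    rw [uIcc_of_le (ht i hi).le]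
    exact (hX n).mono (Icc_subset_Icc hi1 hi2)
  · intro i hi
    have hi' := Finset.mem_range.1 hi
    exact summ_int hF hC hI (h0.trans (hmono 0 i (Nat.zero_le _) (by omega))) (ht i hi').le
      ((hmono (i + 1) m (by omega) le_rfl).trans hm)

/-- W3: additivity and oscillation of the series of means -/
theorem mean_series {β C K : ℝ} (hβ : 1 < β) (hC : 0 ≤ C) (hK : 0 ≤ K) (k : ℕ) :
    ∃ O : ℝ, 1 ≤ O ∧ ∀ (u v : ℕ → ℝ → ℝ) (a b β₁ β₂ : ℝ), β ≤ β₁ → Fam u v a b β₁ β₂ →
      ∀ X : ℕ → ℝ → ℝ, (∀ n, ∀ x ∈ Icc a b, |X n x| ≤ 1) → (∀ n, ContinuousOn (X n) (Icc a b)) →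
      (∀ (n : ℕ) (p q : ℝ), a ≤ p → p ≤ q → q ≤ b → |∫ x in p..q, X n x| ≤ C / v n p) →
      (∀ (n : ℕ), ∀ x ∈ Icc a b, ∀ y ∈ Icc a b, x ≤ y →
        |X n x - X n y| ≤ K * (u (n + k) y - u (n + k) x)) →
      (∀ (t : ℕ → ℝ) (m : ℕ), (∀ i < m, t i < t (i + 1)) → a ≤ t 0 → t m ≤ b → 1 ≤ m →
        ∑ i ∈ Finset.range m, (t (i + 1) - t i) * MvG X (t i) (t (i + 1))
          = (t m - t 0) * MvG X (t 0) (t m)) ∧
      (∀ (n : ℕ) (p q : ℝ), a ≤ p → p < q → q ≤ b → 1 ≤ u n q - u n p → u n q - u n p ≤ 2 →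
        ∀ x ∈ Icc p q, |∑ j ∈ Finset.range n, X j x - MvG X p q| ≤ O) := by
  have hβ0 : 0 < β := zero_lt_one.trans hβ
  have hr1 : 1 / β < 1 := (div_lt_one hβ0).2 hβ
  have hr0' : 0 ≤ 1 / β := by positivity
  have hinv : 0 < (1 - 1 / β)⁻¹ := inv_pos.2 (sub_pos.2 hr1)
  have hgs : Summable (fun d : ℕ => (1 / β) ^ d) := summable_geometric_of_lt_one hr0' hr1
  refine ⟨1 + 2 * k + 4 * K * (1 - 1 / β)⁻¹ + 2 * C * (1 - 1 / β)⁻¹, ?_, ?_⟩
  · have h1 : 0 ≤ 4 * K * (1 - 1 / β)⁻¹ := by positivity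
    have h2 : 0 ≤ 2 * C * (1 - 1 / β)⁻¹ := by positivity
    have h3 : (0 : ℝ) ≤ 2 * k := by positivity
    linarith
  intro u v a b β₁ β₂ hββ hF X hbd hcont hI hlip
  refine ⟨fun t m ht h0 hm hm1 => mvG_add hF hC hcont hI t m ht h0 hm hm1, ?_⟩
  intro n p q hp hpq hq hn1 hn2 x hx
  have hsub : Icc p q ⊆ Icc a b := Icc_subset_Icc hp hq
  have hpm : p ∈ Icc a b := hsub ⟨le_rfl, hpq.le⟩
  have hqm : q ∈ Icc a b := hsub ⟨hpq.le, le_rfl⟩
  have hw : 0 < q - p := sub_pos.2 hpq
  have hvp : 0 < v n p := hF.pos n p hpm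
  have hβ₁0 : 0 < β₁ := hβ0.trans_le hββ
  obtain ⟨m1, m2⟩ := Fam.mvt hF n hp hpq.le hq
  have hd : v n q ≤ 2 * v n p := hF.dist2 n p hpm q hqm hpq.le hn2
  have hlow : 1 / 2 ≤ v n p * (q - p) := by nlinarith
  have hup : v n p * (q - p) ≤ 2 := m1.trans hn2
  have hr : 1 / β₁ ≤ 1 / β := one_div_le_one_div_of_le hβ0 hββ
  have hr0 : 0 ≤ 1 / β₁ := by positivity
  set A : ℕ → ℝ := fun j => (∫ y in p..q, X j y) / (q - p) with hA
  have hAsum : Summable A := (summ_int hF hC hI hp hpq.le hq).div_const _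
  have hMv : MvG X p q = ∑ j ∈ Finset.range n, A j + ∑' d : ℕ, A (d + n) := by
    rw [hAsum.sum_add_tsum_nat_add n]
    rfl
  have hdiff : ∑ j ∈ Finset.range n, X j x - MvG X p q =
      ∑ j ∈ Finset.range n, (X j x - A j) - ∑' d : ℕ, A (d + n) := by
    rw [hMv, Finset.sum_sub_distrib]
    ring
  -- tail
  have htail : |∑' d : ℕ, A (d + n)| ≤ 2 * C * (1 - 1 / β)⁻¹ := by
    have h1 : ∀ d : ℕ, ‖A (d + n)‖ ≤ 2 * C * (1 / β) ^ d := by
      intro d
      have h2 := term_le hF hC hI hp hpq.le hq n d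
      rw [add_comm n d] at h2
      have h3 : (1 / β₁) ^ d ≤ (1 / β) ^ d := pow_le_pow_left₀ hr0 hr d
      have h5 : C / v n p / (q - p) ≤ 2 * C := by
        rw [div_div, div_le_iff₀ (by positivity)]
        nlinarith
      calc ‖A (d + n)‖ = |∫ y in p..q, X (d + n) y| / (q - p) := by
            rw [Real.norm_eq_abs, hA, abs_div, abs_of_pos hw]
        _ ≤ (1 / β₁) ^ d * (C / v n p) / (q - p) := by gcongr
        _ = (1 / β₁) ^ d * (C / v n p / (q - p)) := by ring
        _ ≤ (1 / β) ^ d * (2 * C) := by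
            refine mul_le_mul h3 h5 (by positivity) (by positivity)
        _ = 2 * C * (1 / β) ^ d := by ring
    have h6 := tsum_of_norm_bounded (hgs.mul_left (2 * C)).hasSum h1
    rw [Real.norm_eq_abs, tsum_mul_left, tsum_geometric_of_lt_one hr0' hr1] at h6
    exact h6
  -- head
  have hmean : ∀ j, ∀ δ : ℝ, (∀ y ∈ Icc p q, |X j x - X j y| ≤ δ) → |X j x - A j| ≤ δ := by
    intro j δ hδ
    have e1 : X j x - A j = (∫ y in p..q, (X j x - X j y)) / (q - p) := by
      rw [intervalIntegral.integral_sub, intervalIntegral.integral_const, smul_eq_mul]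
      · rw [hA]
        field_simp
      · exact intervalIntegrable_const
      · refine ContinuousOn.intervalIntegrable ?_
        rw [uIcc_of_le hpq.le]
        exact (hcont j).mono hsub
    rw [e1, abs_div, abs_of_pos hw, div_le_iff₀ hw]
    have h2 := intervalIntegral.norm_integral_le_of_norm_le_const (a := p) (b := q) (f := fun y => X j x - X j y)
      (C := δ) (fun y hy => by
        rw [uIoc_of_le hpq.le] at hy
        exact hδ y ⟨hy.1.le, hy.2⟩)
    rwa [abs_of_pos hw, Real.norm_eq_abs] at h2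
  have hterm : ∀ j ∈ Finset.range n, |X j x - A j| ≤
      (if j + k ≤ n then 4 * K * (1 / β) ^ (n - (j + k)) else 0) + (if n < j + k then 2 else 0) := by
    intro j _
    refine hmean j _ fun y hy => ?_
    rcases le_or_gt (j + k) n with hj | hj
    · rw [if_pos hj, if_neg (not_lt.2 hj), add_zero]
      -- variation of u (j + k)
      have hvar : u (j + k) q - u (j + k) p ≤ 4 * (1 / β) ^ (n - (j + k)) := by
        have h1 := (Fam.mvt hF (j + k) hp hpq.le hq).2
        have h2 := Fam.pow_le hF hqm (j + k) (n - (j + k))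
        rw [Nat.add_sub_cancel' hj] at h2
        have hvj := hF.pos (j + k) q hqm
        have hb : β ^ (n - (j + k)) ≤ β₁ ^ (n - (j + k)) := pow_le_pow_left₀ hβ0.le hββ _
        have hbp : 0 < β ^ (n - (j + k)) := by positivity
        have h3 : β ^ (n - (j + k)) * v (j + k) q ≤ v n q := (mul_le_mul_of_nonneg_right hb hvj.le).trans h2
        rw [one_div_pow, ← div_eq_mul_one_div, le_div_iff₀ hbp]
        have h4 : (u (j + k) q - u (j + k) p) * β ^ (n - (j + k)) ≤ v (j + k) q * (q - p) * β ^ (n - (j + k)) :=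
          mul_le_mul_of_nonneg_right h1 hbp.le
        nlinarith
      have hmonoU : ∀ z ∈ Icc p q, u (j + k) p ≤ u (j + k) z ∧ u (j + k) z ≤ u (j + k) q := by
        intro z hz
        have a1 := (Fam.mvt hF (j + k) hp hz.1 (hz.2.trans hq)).1
        have a2 := (Fam.mvt hF (j + k) (hp.trans hz.1) hz.2 hq).1
        have a3 := (hF.pos (j + k) p hpm).le
        have a4 := (hF.pos (j + k) z (hsub hz)).le
        constructor
        · nlinarith [hz.1, mul_nonneg a3 (sub_nonneg.2 hz.1)]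
        · nlinarith [hz.2, mul_nonneg a4 (sub_nonneg.2 hz.2)]
      have hx' := hmonoU x hx
      have hy' := hmonoU y hy
      rcases le_total x y with hxy | hxy
      · have h5 := hlip j x (hsub hx) y (hsub hy) hxy
        calc |X j x - X j y| ≤ K * (u (j + k) y - u (j + k) x) := h5
          _ ≤ K * (4 * (1 / β) ^ (n - (j + k))) := mul_le_mul_of_nonneg_left (by linarith [hx'.1, hy'.2]) hK
          _ = 4 * K * (1 / β) ^ (n - (j + k)) := by ring
      · have h5 := hlip j y (hsub hy) x (hsub hx) hxy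
        rw [abs_sub_comm] at h5
        calc |X j x - X j y| ≤ K * (u (j + k) x - u (j + k) y) := h5
          _ ≤ K * (4 * (1 / β) ^ (n - (j + k))) := mul_le_mul_of_nonneg_left (by linarith [hy'.1, hx'.2]) hK
          _ = 4 * K * (1 / β) ^ (n - (j + k)) := by ring
    · rw [if_neg (not_le.2 hj), if_pos hj, zero_add]
      have h2 := hbd j x (hsub hx)
      have h3 := hbd j y (hsub hy)
      rw [abs_le] at h2 h3 ⊢
      constructor <;> linarith [h2.1, h2.2, h3.1, h3.2]
  have hhead : |∑ j ∈ Finset.range n, (X j x - A j)| ≤ 4 * K * (1 - 1 / β)⁻¹ + 2 * k := by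
    refine (Finset.abs_sum_le_sum_abs _ _).trans ((Finset.sum_le_sum hterm).trans ?_)
    rw [Finset.sum_add_distrib]
    refine add_le_add ?_ ?_
    · -- geometric
      rw [← Finset.sum_filter, ← tsum_geometric_of_lt_one hr0' hr1, ← Finset.mul_sum]
      refine mul_le_mul_of_nonneg_left ?_ (by positivity)
      have hinj : Set.InjOn (fun j => n - (j + k)) ((Finset.range n).filter (fun j => j + k ≤ n) : Set ℕ) := by
        intro i hi j hj hij
        simp only [Finset.coe_filter, Finset.mem_range, Set.mem_ofPred_eq] at hi hj hij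
        omega
      rw [← Finset.sum_image (f := fun i => (1 / β) ^ i) hinj]
      exact hgs.sum_le_tsum _ (fun i _ => by positivity)
    · rw [← Finset.sum_filter, Finset.sum_const, nsmul_eq_mul, mul_comm]
      refine mul_le_mul_of_nonneg_left ?_ (by norm_num)
      have hcard : ((Finset.range n).filter (fun j => n < j + k)).card ≤ k := by
        calc ((Finset.range n).filter (fun j => n < j + k)).card ≤ (Finset.Ico (n - k) n).card := by
              refine Finset.card_le_card fun j hj => ?_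
              simp only [Finset.mem_filter, Finset.mem_range, Finset.mem_Ico] at hj ⊢
              omega
          _ ≤ k := by rw [Nat.card_Ico]; omega
      exact_mod_cast hcard
  rw [hdiff]
  refine (abs_sub _ _).trans ?_
  linarith

end Pool.Agent.Helper41.KW
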