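import Pool.Agent.Helper41.KW.Word

/-!
# The rules for pairs and triples of places
-/

set_option autoImplicit false

open Finset

namespace Pool.Agent.Helper41.KW

/-- the twenty sets as numbers -/
def masks : List ℕ := [7, 11, 13, 14, 19, 21, 22, 25, 26, 28, 35, 37, 38, 41, 42, 44, 49, 50, 52, 56]

/-- the function of a number -/
def ofMask (k : ℕ) : Fin 6 → Bool := fun a => k.testBit a

theorem C_eq : C = (masks.map ofMask).toFinset := by decide +kernel

theorem nodup_masks : (masks.map ofMask).Nodup := by decide +kernel

theorem card_filter (P : (Fin 6 → Bool) → Prop) [DecidablePred P] :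
    (C.filter P).card = (masks.countP fun k => decide (P (ofMask k))) := by
  have h1 : C.filter P = ((masks.map ofMask).filter fun w => decide (P w)).toFinset := by
    ext w
    simp [C_eq]
  rw [h1, List.toFinset_card_of_nodup (nodup_masks.filter _), ← List.countP_eq_length_filter,
    List.countP_map]
  rfl

theorem mem_C_iff (w : Fin 6 → Bool) : w ∈ C ↔ ∃ k ∈ masks, ofMask k = w := by
  rw [C_eq]
  simp

theorem sg_neg (w : Fin 6 → Bool) (a : Fin 6) : sg (neg w) a = -sg w a := by
  rcases h : w a with _ | _ <;> simp [sg, neg, h]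

theorem neg_neg (w : Fin 6 → Bool) : neg (neg w) = w := by
  funext a
  simp [neg]

theorem neg_mem {w : Fin 6 → Bool} (hw : w ∈ C) : neg w ∈ C := by
  revert w
  decide +kernel

theorem card_neg (P : (Fin 6 → Bool) → Prop) [DecidablePred P] :
    (C.filter fun w => P (neg w)).card = (C.filter P).card := by
  refine Finset.card_bij (fun w _ => neg w) ?_ ?_ ?_
  · intro w hw
    rw [mem_filter] at hw ⊢
    exact ⟨neg_mem hw.1, hw.2⟩
  · intro w _ w' _ h
    rw [← neg_neg w, ← neg_neg w', h]
  · intro w hw
    rw [mem_filter] at hw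
    refine ⟨neg w, ?_, neg_neg w⟩
    rw [mem_filter, neg_neg]
    exact ⟨neg_mem hw.1, hw.2⟩

theorem card_split (P Q : (Fin 6 → Bool) → Prop) [DecidablePred P] [DecidablePred Q] :
    (C.filter P).card = (C.filter fun w => P w ∧ Q w).card + (C.filter fun w => P w ∧ ¬Q w).card := by
  rw [← Finset.card_filter_add_card_filter_not (s := C.filter P) Q, filter_filter,
    filter_filter]

theorem card_together (i j : Fin 6) (h : i ≠ j) :
    (C.filter fun w => w i = true ∧ w j = true).card = 4 := by
  rw [card_filter]
  revert i j
  decide +kernel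

theorem card_apart (i j : Fin 6) (h : i ≠ j) :
    (C.filter fun w => w i = true ∧ ¬w j = true).card = 6 := by
  rw [card_filter]
  revert i j
  decide +kernel

theorem sg_or (w : Fin 6 → Bool) (a : Fin 6) : sg w a = 1 ∨ sg w a = -1 := by
  rcases h : w a with _ | _ <;> simp [sg, h]

theorem sg_true {w : Fin 6 → Bool} {a : Fin 6} (h : w a = true) : sg w a = 1 := by simp [sg, h]

theorem sg_false {w : Fin 6 → Bool} {a : Fin 6} (h : ¬w a = true) : sg w a = -1 := by simp [sg, h]

namespace Word

variable (W : Word)

theorem pred_iff_together (p q : ℕ) (e : ℤ) (w : Fin 6 → Bool) (hw : w ∈ C)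
    (h : W.s p * sg w (W.i p) = e * W.s q * sg w (W.i q)) (he : e = 1 ∨ e = -1) :
    (W.Y p w + e * W.Y q w < 0) ↔ W.s p * sg w (W.i p) = -1 := by
  have h1 := W.step p w hw
  have h2 := W.step q w hw
  have h3 := abs_lt.1 (W.bd (p + 1) w hw)
  have h4 := abs_lt.1 (W.bd (q + 1) w hw)
  have h5 : W.M * (e * W.s q * sg w (W.i q)) = e * (2 * W.Y q w - W.Y (q + 1) w) := by
    rw [h2]; ring
  have h6 : W.s p * sg w (W.i p) = 1 ∨ W.s p * sg w (W.i p) = -1 := by
    rcases W.hs p with h | h <;> rcases sg_or w (W.i p) with h' | h' <;> simp [h, h']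
  rw [← h] at h5
  rcases h6 with h6 | h6 <;> rw [h6] at h1 h5 ⊢ <;> rcases he with rfl | rfl <;>
    constructor <;> intro h7 <;> first | omega | (exfalso; omega)

theorem pred_iff_apart (p q : ℕ) (e : ℤ) (w : Fin 6 → Bool) (hw : w ∈ C)
    (h : W.s p * sg w (W.i p) = -(e * W.s q * sg w (W.i q))) :
    (W.Y p w + e * W.Y q w < 0) ↔ (W.Y (p + 1) w + e * W.Y (q + 1) w < 0) := by
  have h1 := W.step p w hw
  have h2 := W.step q w hw
  have h3 : 2 * (W.Y p w + e * W.Y q w) = W.Y (p + 1) w + e * W.Y (q + 1) w := by
    have : 2 * (W.Y p w + e * W.Y q w) = 2 * W.Y p w + e * (2 * W.Y q w) := by ring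
    rw [this, h1, h2, h]
    ring
  constructor <;> intro h4 <;> omega

theorem even_zero_or {a b c : ℕ} (h : a = b + c) (ha : Even a) (hb : Even b) : Even c := by
  subst h
  exact (Nat.even_add.1 ha).1 hb

/-- The rule for pairs: both classes are even. -/
theorem pair_rule (p q : ℕ) (h : W.i p ≠ W.i q) (e : ℤ) (he : e = 1 ∨ e = -1) :
    Even (C.filter fun w => (w (W.i p) = true ∧ w (W.i q) = true) ∧
      W.Y (p + 1) w + e * W.Y (q + 1) w < 0).card ∧
    Even (C.filter fun w => (w (W.i p) = true ∧ ¬w (W.i q) = true) ∧
      W.Y (p + 1) w + e * W.Y (q + 1) w < 0).card := by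
  have h0 := W.pair (W.i p) (p + 1) (q + 1) e he
  have h1 := W.pair (W.i p) p q e he
  rw [card_split _ fun w => w (W.i q) = true] at h0 h1
  have c1 : ∀ B : (Fin 6 → Bool) → Prop, ∀ [DecidablePred B],
      (C.filter fun w => (w (W.i p) = true ∧ B w) ∧ w (W.i q) = true) =
      (C.filter fun w => (w (W.i p) = true ∧ w (W.i q) = true) ∧ B w) := by
    intro B _
    ext w
    simp only [mem_filter]
    tauto
  have c2 : ∀ B : (Fin 6 → Bool) → Prop, ∀ [DecidablePred B],
      (C.filter fun w => (w (W.i p) = true ∧ B w) ∧ ¬w (W.i q) = true) =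
      (C.filter fun w => (w (W.i p) = true ∧ ¬w (W.i q) = true) ∧ B w) := by
    intro B _
    ext w
    simp only [mem_filter]
    tauto
  rw [c1, c2] at h0 h1
  have hc := card_together _ _ h
  have hd := card_apart _ _ h
  -- one of the classes is the same at the two levels, the other one is constant
  have key : Even (C.filter fun w => (w (W.i p) = true ∧ w (W.i q) = true) ∧
        W.Y (p + 1) w + e * W.Y (q + 1) w < 0).card ∨
      Even (C.filter fun w => (w (W.i p) = true ∧ ¬w (W.i q) = true) ∧
        W.Y (p + 1) w + e * W.Y (q + 1) w < 0).card := by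
    have hs : W.s p = e * W.s q ∨ W.s p = -(e * W.s q) := by
      rcases W.hs p with h | h <;> rcases W.hs q with h' | h' <;> rcases he with rfl | rfl <;>
        simp [h, h']
    rcases hs with hs | hs
    · right
      have e1 : (C.filter fun w => (w (W.i p) = true ∧ w (W.i q) = true) ∧
          W.Y p w + e * W.Y q w < 0) =
          (C.filter fun w => (w (W.i p) = true ∧ w (W.i q) = true) ∧ W.s p = -1) := by
        ext w
        simp only [mem_filter]
        constructor
        · rintro ⟨hw, h2, h3⟩
          rw [W.pred_iff_together p q e w hw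
            (by rw [sg_true h2.1, sg_true h2.2, mul_one, mul_one]; exact hs) he, sg_true h2.1,
            mul_one] at h3
          exact ⟨hw, h2, h3⟩
        · rintro ⟨hw, h2, h3⟩
          refine ⟨hw, h2, ?_⟩
          rw [W.pred_iff_together p q e w hw
            (by rw [sg_true h2.1, sg_true h2.2, mul_one, mul_one]; exact hs) he, sg_true h2.1,
            mul_one]
          exact h3
      have e2 : (C.filter fun w => (w (W.i p) = true ∧ ¬w (W.i q) = true) ∧
          W.Y p w + e * W.Y q w < 0) =
          (C.filter fun w => (w (W.i p) = true ∧ ¬w (W.i q) = true) ∧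
            W.Y (p + 1) w + e * W.Y (q + 1) w < 0) := by
        ext w
        simp only [mem_filter]
        refine and_congr_right fun hw => and_congr_right fun h2 => ?_
        exact W.pred_iff_apart p q e w hw (by rw [sg_true h2.1, sg_false h2.2, hs]; ring)
      rw [e1, e2] at h1
      by_cases h5 : W.s p = -1
      · have : (C.filter fun w => (w (W.i p) = true ∧ w (W.i q) = true) ∧ W.s p = -1).card = 4 := by
          simp only [h5, and_true]
          exact hc
        rw [this] at h1
        exact even_zero_or rfl h1 (by decide)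
      · have : (C.filter fun w => (w (W.i p) = true ∧ w (W.i q) = true) ∧ W.s p = -1).card = 0 := by
          simp [h5]
        rw [this] at h1
        exact even_zero_or rfl h1 (by decide)
    · left
      have e1 : (C.filter fun w => (w (W.i p) = true ∧ ¬w (W.i q) = true) ∧
          W.Y p w + e * W.Y q w < 0) =
          (C.filter fun w => (w (W.i p) = true ∧ ¬w (W.i q) = true) ∧ W.s p = -1) := by
        ext w
        simp only [mem_filter]
        refine and_congr_right fun hw => and_congr_right fun h2 => ?_
        rw [W.pred_iff_together p q e w hw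
            (by rw [sg_true h2.1, sg_false h2.2, hs]; ring) he, sg_true h2.1, mul_one]
      have e2 : (C.filter fun w => (w (W.i p) = true ∧ w (W.i q) = true) ∧
          W.Y p w + e * W.Y q w < 0) =
          (C.filter fun w => (w (W.i p) = true ∧ w (W.i q) = true) ∧
            W.Y (p + 1) w + e * W.Y (q + 1) w < 0) := by
        ext w
        simp only [mem_filter]
        refine and_congr_right fun hw => and_congr_right fun h2 => ?_
        exact W.pred_iff_apart p q e w hw (by rw [sg_true h2.1, sg_true h2.2, hs]; ring)
      rw [e1, e2] at h1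
      rw [add_comm] at h1
      by_cases h5 : W.s p = -1
      · have : (C.filter fun w => (w (W.i p) = true ∧ ¬w (W.i q) = true) ∧ W.s p = -1).card
            = 6 := by
          simp only [h5, and_true]
          exact hd
        rw [this] at h1
        exact even_zero_or rfl h1 (by decide)
      · have : (C.filter fun w => (w (W.i p) = true ∧ ¬w (W.i q) = true) ∧ W.s p = -1).card
            = 0 := by
          simp [h5]
        rw [this] at h1
        exact even_zero_or rfl h1 (by decide)
  rcases key with key | key
  · exact ⟨key, even_zero_or rfl h0 key⟩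
  · exact ⟨even_zero_or (add_comm _ _) h0 key, key⟩

end Word

end Pool.Agent.Helper41.KW
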