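import Pool.Agent.Helper41.KW.Check

/-!
# Soundness of the checker
-/

set_option autoImplicit false

open Finset

namespace Pool.Agent.Helper41.KW

theorem ofMask_mem {k : ℕ} (hk : k ∈ masks) : ofMask k ∈ C := (mem_C_iff _).2 ⟨k, hk, rfl⟩

theorem bs_or (b : Bool) : bs b = 1 ∨ bs b = -1 := by cases b <;> simp [bs]

theorem sn_or (n : ℕ) : sn n = 1 ∨ sn n = -1 := by
  unfold sn
  split_ifs <;> simp

theorem sq_pm {g : ℤ} (hg : g = 1 ∨ g = -1) : g * g = 1 := by rcases hg with rfl | rfl <;> rfl

namespace Word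

variable (W : Word)

/-- the digits are those at the place `p`, up to the sign `g` -/
def RealD (g : ℤ) : ℕ → List (ℕ × Bool) → Prop
  | _, [] => True
  | p, (c, b) :: l => (W.i p : ℕ) = c ∧ W.s p = g * bs b ∧ RealD g (p + 1) l

/-- the window is that at the place `p`, up to the sign `g` -/
def Real (g : ℤ) (p : ℕ) (A : Win) : Prop :=
  (W.i p : ℕ) = A.prev ∧ W.RealD g (p + 1) A.dig

theorem val_spec {g : ℤ} (hg : g = 1 ∨ g = -1) (k : ℕ) (hk : k ∈ masks) :
    ∀ (l : List (ℕ × Bool)) (p : ℕ), W.RealD g p l →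
      2 ^ l.length * (g * W.Y p (ofMask k)) =
        W.M * val k l + g * W.Y (p + l.length) (ofMask k) := by
  intro l
  induction l with
  | nil =>
    intro p _
    simp [val]
  | cons x l ih =>
    obtain ⟨c, b⟩ := x
    intro p h
    obtain ⟨h1, h2, h3⟩ := h
    have h4 := ih (p + 1) h3
    have h5 := W.step p _ (ofMask_mem hk)
    have h6 : sg (ofMask k) (W.i p) = sm k c := by rw [← h1]; rfl
    rw [h6] at h5
    have h7 : g * W.s p = bs b := by rw [h2, ← mul_assoc, sq_pm hg, one_mul]
    simp only [val, List.length_cons]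
    have h8 : p + (l.length + 1) = p + 1 + l.length := by omega
    rw [h8]
    calc (2 : ℤ) ^ (l.length + 1) * (g * W.Y p (ofMask k))
        = 2 ^ l.length * (g * (2 * W.Y p (ofMask k))) := by ring
      _ = W.M * (2 ^ l.length * (sm k c * (g * W.s p))) +
          2 ^ l.length * (g * W.Y (p + 1) (ofMask k)) := by rw [h5]; ring
      _ = _ := by rw [h4, h7]; ring

theorem real_drop {g : ℤ} : ∀ (n p : ℕ) (A : Win), W.Real g p A →
    ∃ p', W.Real g p' (A.drop n) := by
  intro n
  induction n with
  | zero => exact fun p A h => ⟨p, h⟩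
  | succ n ih =>
    intro p A h
    obtain ⟨a, l⟩ := A
    cases l with
    | nil => exact ⟨p, h⟩
    | cons x l =>
      obtain ⟨c, b⟩ := x
      obtain ⟨h1, h2, h3, h4⟩ := h
      exact ih (p + 1) ⟨c, l⟩ ⟨h2, h4⟩

theorem even_pair (p q : ℕ) (e : ℤ) (he : e = 1 ∨ e = -1) (t : Bool) :
    Even ((masks.filter (cls (W.i p) (W.i q) t)).countP fun k =>
      decide (W.Y (p + 1) (ofMask k) + e * W.Y (q + 1) (ofMask k) < 0)) := by
  rw [List.countP_filter]
  by_cases h : W.i p = W.i q
  · have h1 := W.pair (W.i p) (p + 1) (q + 1) e he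
    rw [card_filter] at h1
    convert h1 using 2
    funext k
    simp [cls, h, ofMask, Bool.and_comm]
  · have h0 : ((W.i p : ℕ) == (W.i q : ℕ)) = false :=
      beq_eq_false_iff_ne.2 fun h' => h (Fin.ext h')
    have h1 := W.pair_rule p q h e he
    cases t
    · have h2 := h1.2
      rw [card_filter] at h2
      convert h2 using 2
      funext k
      rcases h5 : k.testBit (W.i p) with _ | _ <;> rcases h6 : k.testBit (W.i q) with _ | _ <;>
        simp [cls, h0, ofMask, h5, h6]
    · have h2 := h1.1
      rw [card_filter] at h2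
      convert h2 using 2
      funext k
      rcases h5 : k.testBit (W.i p) with _ | _ <;> rcases h6 : k.testBit (W.i q) with _ | _ <;>
        simp [cls, h0, ofMask, h5, h6]

theorem leaf2_sound {gA gB : ℤ} (hA : gA = 1 ∨ gA = -1) (hB : gB = 1 ∨ gB = -1) {p q : ℕ}
    {A B : Win} (rA : W.Real gA p A) (rB : W.Real gB q B) {e : ℤ} (he : e = 1 ∨ e = -1)
    {t : Bool} (h : leaf2 A B e t = true) : False := by
  have hM := W.M_pos
  simp only [leaf2, Bool.and_eq_true, List.all_eq_true, beq_iff_eq] at h
  obtain ⟨⟨h1, h2⟩, h3⟩ := h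
  have hee : e * gA * gB = 1 ∨ e * gA * gB = -1 := mul_pm (mul_pm he hA) hB
  have h4 := W.even_pair p q (e * gA * gB) hee t
  rw [rA.1, rB.1] at h4
  set L := masks.filter (cls A.prev B.prev t) with hL
  have key : ∀ k ∈ L, ∃ tA tB : ℤ, |tA| < W.M ∧ |tB| < W.M ∧
      2 ^ (A.dig.length + B.dig.length) * (gA * (W.Y (p + 1) (ofMask k) +
        (e * gA * gB) * W.Y (q + 1) (ofMask k))) =
      W.M * sum2 A B e k + (2 ^ B.dig.length * tA + e * (2 ^ A.dig.length * tB)) := by
    intro k hk
    have hk' : k ∈ masks := List.mem_of_mem_filter hk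
    have v1 := W.val_spec hA k hk' _ _ rA.2
    have v2 := W.val_spec hB k hk' _ _ rB.2
    refine ⟨gA * W.Y (p + 1 + A.dig.length) (ofMask k),
      gB * W.Y (q + 1 + B.dig.length) (ofMask k), ?_, ?_, ?_⟩
    · have := W.bd (p + 1 + A.dig.length) _ (ofMask_mem hk')
      rcases hA with rfl | rfl
      · rwa [one_mul]
      · rwa [neg_one_mul, abs_neg]
    · have := W.bd (q + 1 + B.dig.length) _ (ofMask_mem hk')
      rcases hB with rfl | rfl
      · rwa [one_mul]
      · rwa [neg_one_mul, abs_neg]
    · have e1 : gA * (W.Y (p + 1) (ofMask k) + (e * gA * gB) * W.Y (q + 1) (ofMask k)) =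
          gA * W.Y (p + 1) (ofMask k) + e * (gB * W.Y (q + 1) (ofMask k)) := by
        have := sq_pm hA
        linear_combination (e * gB * W.Y (q + 1) (ofMask k)) * this
      rw [e1, pow_add]
      calc (2 : ℤ) ^ A.dig.length * 2 ^ B.dig.length * (gA * W.Y (p + 1) (ofMask k) +
            e * (gB * W.Y (q + 1) (ofMask k)))
          = 2 ^ B.dig.length * (2 ^ A.dig.length * (gA * W.Y (p + 1) (ofMask k))) +
            e * (2 ^ A.dig.length * (2 ^ B.dig.length * (gB * W.Y (q + 1) (ofMask k)))) := by ring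
        _ = _ := by rw [v1, v2, sum2]; ring
  have pA : (0 : ℤ) < 2 ^ A.dig.length := by positivity
  have pB : (0 : ℤ) < 2 ^ B.dig.length := by positivity
  have pAB : (0 : ℤ) < 2 ^ (A.dig.length + B.dig.length) := by positivity
  have kpos : ∀ k ∈ L, err2 A B ≤ sum2 A B e k →
      0 < gA * (W.Y (p + 1) (ofMask k) + (e * gA * gB) * W.Y (q + 1) (ofMask k)) := by
    intro k hk h5
    obtain ⟨tA, tB, a1, a2, a3⟩ := key k hk
    rw [abs_lt] at a1 a2
    by_contra h6
    push Not at h6
    have h7 : 2 ^ (A.dig.length + B.dig.length) * (gA * (W.Y (p + 1) (ofMask k) +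
        (e * gA * gB) * W.Y (q + 1) (ofMask k))) ≤ 0 :=
      mul_nonpos_of_nonneg_of_nonpos pAB.le h6
    have h8 : W.M * err2 A B ≤ W.M * sum2 A B e k := mul_le_mul_of_nonneg_left h5 hM.le
    rw [err2] at h8
    rcases he with rfl | rfl <;> nlinarith
  have kneg : ∀ k ∈ L, sum2 A B e k ≤ -err2 A B →
      gA * (W.Y (p + 1) (ofMask k) + (e * gA * gB) * W.Y (q + 1) (ofMask k)) < 0 := by
    intro k hk h5
    obtain ⟨tA, tB, a1, a2, a3⟩ := key k hk
    rw [abs_lt] at a1 a2
    by_contra h6
    push Not at h6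
    have h7 : 0 ≤ 2 ^ (A.dig.length + B.dig.length) * (gA * (W.Y (p + 1) (ofMask k) +
        (e * gA * gB) * W.Y (q + 1) (ofMask k))) :=
      mul_nonneg pAB.le h6
    have h8 : W.M * sum2 A B e k ≤ W.M * (-err2 A B) := mul_le_mul_of_nonneg_left h5 hM.le
    rw [err2] at h8
    rcases he with rfl | rfl <;> nlinarith
  rcases hA with rfl | rfl
  · have c : L.countP (fun k => decide (W.Y (p + 1) (ofMask k) +
        (e * 1 * gB) * W.Y (q + 1) (ofMask k) < 0)) =
        L.countP (fun k => decide (sum2 A B e k ≤ -err2 A B)) := by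
      apply List.countP_congr
      intro k hk
      have k1 := kpos k hk
      have k2 := kneg k hk
      rw [one_mul] at k1 k2
      have k3 := h1 k hk
      simp only [Bool.or_eq_true, decide_eq_true_eq] at k3 ⊢
      constructor
      · intro k4
        rcases k3 with k3 | k3
        · have := k1 k3
          omega
        · exact k3
      · exact k2
    rw [c] at h4
    obtain ⟨x, hx⟩ := h4
    omega
  · have c : L.countP (fun k => decide (W.Y (p + 1) (ofMask k) +
        (e * -1 * gB) * W.Y (q + 1) (ofMask k) < 0)) =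
        L.countP (fun k => !decide (sum2 A B e k ≤ -err2 A B)) := by
      apply List.countP_congr
      intro k hk
      have k1 := kpos k hk
      have k2 := kneg k hk
      have k3 := h1 k hk
      simp only [Bool.or_eq_true, decide_eq_true_eq, Bool.not_eq_true', decide_eq_false_iff_not]
        at k3 ⊢
      constructor
      · intro k4 k5
        have := k2 k5
        omega
      · intro k4
        rcases k3 with k3 | k3
        · have := k1 k3
          omega
        · exact absurd k3 k4
    rw [c] at h4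
    have h5 := List.length_eq_countP_add_countP (fun k => decide (sum2 A B e k ≤ -err2 A B))
      (l := L)
    simp only [decide_eq_true_eq, decide_not] at h5
    obtain ⟨x, hx⟩ := h4
    omega

end Word

end Pool.Agent.Helper41.KW
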