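import Pool.Agent.Helper41.KW.Sound

/-!
# Soundness of the checker: the leaves for triples and the tree
-/

set_option autoImplicit false

open Finset

namespace Pool.Agent.Helper41.KW

namespace Word

variable (W : Word)

theorem leaf3_sound {gA gB gD : ℤ} (hA : gA = 1 ∨ gA = -1) (hB : gB = 1 ∨ gB = -1)
    (hD : gD = 1 ∨ gD = -1) {p q t : ℕ} {A B D : Win} (rA : W.Real gA p A) (rB : W.Real gB q B)
    (rD : W.Real gD t D) {e1 e2 e3 : ℤ} (h1 : e1 = 1 ∨ e1 = -1) (h2 : e2 = 1 ∨ e2 = -1)
    (h3 : e3 = 1 ∨ e3 = -1) (h : leaf3 A B D e1 e2 e3 = true) : False := by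
  have hM := W.M_pos
  simp only [leaf3, Bool.and_eq_true, List.all_eq_true, List.any_eq_true, bne_iff_ne] at h
  obtain ⟨⟨a1, a2⟩, a3⟩ := h
  set L := masks.filter fun k => decide (sm k A.prev * sm k B.prev * sm k D.prev = -1) with hL
  set τ : (Fin 6 → Bool) → ℤ := fun w => (e1 * gA) * W.Y (p + 1) w + (e2 * gB) * W.Y (q + 1) w +
    (e3 * gD) * W.Y (t + 1) w with hτ
  have pA : (0 : ℤ) < 2 ^ (B.dig.length + D.dig.length) := by positivity
  have pB : (0 : ℤ) < 2 ^ (A.dig.length + D.dig.length) := by positivity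
  have pD : (0 : ℤ) < 2 ^ (A.dig.length + B.dig.length) := by positivity
  have pT : (0 : ℤ) < thr3 A B D := by unfold thr3; positivity
  have key : ∀ k ∈ masks, W.M * (sum3 A B D e1 e2 e3 k - err3 A B D) <
      thr3 A B D * τ (ofMask k) ∧ thr3 A B D * τ (ofMask k) <
      W.M * (sum3 A B D e1 e2 e3 k + err3 A B D) := by
    intro k hk
    have v1 := W.val_spec hA k hk _ _ rA.2
    have v2 := W.val_spec hB k hk _ _ rB.2
    have v3 := W.val_spec hD k hk _ _ rD.2
    have b1 := W.bd (p + 1 + A.dig.length) _ (ofMask_mem hk)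
    have b2 := W.bd (q + 1 + B.dig.length) _ (ofMask_mem hk)
    have b3 := W.bd (t + 1 + D.dig.length) _ (ofMask_mem hk)
    have c : ∀ {x y z : ℤ}, (x = 1 ∨ x = -1) → (y = 1 ∨ y = -1) → |z| < W.M →
        x * (y * z) < W.M ∧ -W.M < x * (y * z) := by
      intro x y z hx hy hz
      rw [abs_lt] at hz
      rcases hx with rfl | rfl <;> rcases hy with rfl | rfl <;> constructor <;> linarith [hz.1, hz.2]
    have c1 := c h1 hA b1
    have c2 := c h2 hB b2
    have c3 := c h3 hD b3
    have e : thr3 A B D * τ (ofMask k) = W.M * sum3 A B D e1 e2 e3 k +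
        (2 ^ (B.dig.length + D.dig.length) * (e1 * (gA * W.Y (p + 1 + A.dig.length) (ofMask k))) +
        2 ^ (A.dig.length + D.dig.length) * (e2 * (gB * W.Y (q + 1 + B.dig.length) (ofMask k))) +
        2 ^ (A.dig.length + B.dig.length) *
          (e3 * (gD * W.Y (t + 1 + D.dig.length) (ofMask k)))) := by
      simp only [hτ, thr3, sum3, pow_add]
      calc (2 : ℤ) ^ A.dig.length * 2 ^ B.dig.length * 2 ^ D.dig.length *
            (e1 * gA * W.Y (p + 1) (ofMask k) + e2 * gB * W.Y (q + 1) (ofMask k) +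
              e3 * gD * W.Y (t + 1) (ofMask k))
          = 2 ^ B.dig.length * 2 ^ D.dig.length * e1 *
              (2 ^ A.dig.length * (gA * W.Y (p + 1) (ofMask k))) +
            2 ^ A.dig.length * 2 ^ D.dig.length * e2 *
              (2 ^ B.dig.length * (gB * W.Y (q + 1) (ofMask k))) +
            2 ^ A.dig.length * 2 ^ B.dig.length * e3 *
              (2 ^ D.dig.length * (gD * W.Y (t + 1) (ofMask k))) := by ring
        _ = _ := by rw [v1, v2, v3]; ring
    rw [e]
    simp only [err3]
    have d1 := mul_lt_mul_of_pos_left c1.1 pA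
    have d1' := mul_lt_mul_of_pos_left c1.2 pA
    have d2 := mul_lt_mul_of_pos_left c2.1 pB
    have d2' := mul_lt_mul_of_pos_left c2.2 pB
    have d3 := mul_lt_mul_of_pos_left c3.1 pD
    have d3' := mul_lt_mul_of_pos_left c3.2 pD
    constructor <;> linarith
  have kbig : ∀ k ∈ masks, thr3 A B D + err3 A B D ≤ sum3 A B D e1 e2 e3 k →
      W.M < τ (ofMask k) := by
    intro k hk h5
    have h6 := (key k hk).1
    have h7 : W.M * thr3 A B D ≤ W.M * (sum3 A B D e1 e2 e3 k - err3 A B D) :=
      mul_le_mul_of_nonneg_left (by linarith) hM.le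
    by_contra h8
    push Not at h8
    have h9 := mul_le_mul_of_nonneg_left h8 pT.le
    linarith
  have ksmall : ∀ k ∈ masks, sum3 A B D e1 e2 e3 k ≤ thr3 A B D - err3 A B D →
      τ (ofMask k) < W.M := by
    intro k hk h5
    have h6 := (key k hk).2
    have h7 : W.M * (sum3 A B D e1 e2 e3 k + err3 A B D) ≤ W.M * thr3 A B D :=
      mul_le_mul_of_nonneg_left (by linarith) hM.le
    by_contra h8
    push Not at h8
    have h9 := mul_le_mul_of_nonneg_left h8 pT.le
    linarith
  have ksmall' : ∀ k ∈ masks, -thr3 A B D + err3 A B D ≤ sum3 A B D e1 e2 e3 k →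
      -W.M < τ (ofMask k) := by
    intro k hk h5
    have h6 := (key k hk).1
    have h7 : W.M * (-thr3 A B D) ≤ W.M * (sum3 A B D e1 e2 e3 k - err3 A B D) :=
      mul_le_mul_of_nonneg_left (by linarith) hM.le
    by_contra h8
    push Not at h8
    have h9 := mul_le_mul_of_nonneg_left h8 pT.le
    linarith
  have kbig' : ∀ k ∈ masks, sum3 A B D e1 e2 e3 k ≤ -thr3 A B D - err3 A B D →
      τ (ofMask k) < -W.M := by
    intro k hk h5
    have h6 := (key k hk).2
    have h7 : W.M * (sum3 A B D e1 e2 e3 k + err3 A B D) ≤ W.M * (-thr3 A B D) :=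
      mul_le_mul_of_nonneg_left (by linarith) hM.le
    by_contra h8
    push Not at h8
    have h9 := mul_le_mul_of_nonneg_left h8 pT.le
    linarith
  have hnd : ∃ w ∈ C, |(e1 * gA) * W.Y (p + 1) w + (e2 * gB) * W.Y (q + 1) w +
      (e3 * gD) * W.Y (t + 1) w| ≠ W.M := by
    obtain ⟨k, hk, h5⟩ := a2
    have hk' : k ∈ masks := List.mem_of_mem_filter hk
    refine ⟨ofMask k, ofMask_mem hk', ?_⟩
    change |τ (ofMask k)| ≠ W.M
    simp only [Bool.or_eq_true, Bool.and_eq_true, decide_eq_true_eq] at h5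
    rcases h5 with (h5 | h5) | h5
    · have := kbig k hk' h5
      rw [abs_of_pos (by linarith)]
      exact this.ne'
    · have b1 := ksmall k hk' h5.1
      have b2 := ksmall' k hk' h5.2
      exact (abs_lt.2 ⟨b2, b1⟩).ne
    · have := kbig' k hk' h5
      rw [abs_of_neg (by linarith)]
      intro h6
      linarith
  have hr := W.triple_rule p q t (mul_pm h1 hA) (mul_pm h2 hB) (mul_pm h3 hD) hnd
  rw [card_filter] at hr
  have c1 : masks.countP (fun k => decide (sg (ofMask k) (W.i p) * sg (ofMask k) (W.i q) *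
      sg (ofMask k) (W.i t) = -1 ∧ W.M < τ (ofMask k))) =
      L.countP fun k => decide (thr3 A B D + err3 A B D ≤ sum3 A B D e1 e2 e3 k) := by
    rw [hL, List.countP_filter]
    apply List.countP_congr
    intro k hk
    have s1 : sg (ofMask k) (W.i p) = sm k A.prev := by rw [← rA.1]; rfl
    have s2 : sg (ofMask k) (W.i q) = sm k B.prev := by rw [← rB.1]; rfl
    have s3 : sg (ofMask k) (W.i t) = sm k D.prev := by rw [← rD.1]; rfl
    rw [s1, s2, s3]
    simp only [Bool.and_eq_true, decide_eq_true_eq]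
    constructor
    · rintro ⟨h5, h6⟩
      refine ⟨?_, h5⟩
      have h7 := a1 k (List.mem_filter.2 ⟨hk, by simpa using h5⟩)
      simp only [Bool.or_eq_true, decide_eq_true_eq] at h7
      rcases h7 with h7 | h7
      · exact h7
      · have := ksmall k hk h7
        linarith
    · rintro ⟨h5, h6⟩
      exact ⟨h6, kbig k hk h5⟩
  have hr' : (L.countP fun k => decide (thr3 A B D + err3 A B D ≤ sum3 A B D e1 e2 e3 k)) % 2 =
      if W.i p ≠ W.i q ∧ W.i q ≠ W.i t ∧ W.i p ≠ W.i t then 1 else 0 := by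
    rw [← c1]
    exact hr
  apply a3
  rw [hr']
  have e1 : (W.i p ≠ W.i q) ↔ (A.prev ≠ B.prev) := by rw [← rA.1, ← rB.1, ne_eq, ne_eq, Fin.ext_iff]
  have e2 : (W.i q ≠ W.i t) ↔ (B.prev ≠ D.prev) := by rw [← rB.1, ← rD.1, ne_eq, ne_eq, Fin.ext_iff]
  have e3 : (W.i p ≠ W.i t) ↔ (A.prev ≠ D.prev) := by rw [← rA.1, ← rD.1, ne_eq, ne_eq, Fin.ext_iff]
  simp only [dist3, Bool.and_eq_true, bne_iff_ne, e1, e2, e3, and_assoc]

theorem realD_append {g : ℤ} (x : ℕ × Bool) : ∀ (l : List (ℕ × Bool)) (p : ℕ),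
    W.RealD g p l → (W.i (p + l.length) : ℕ) = x.1 → W.s (p + l.length) = g * bs x.2 →
    W.RealD g p (l ++ [x]) := by
  intro l
  induction l with
  | nil => exact fun p _ h1 h2 => ⟨h1, h2, trivial⟩
  | cons y l ih =>
    obtain ⟨c, b⟩ := y
    intro p h h1 h2
    refine ⟨h.1, h.2.1, ih (p + 1) h.2.2 ?_ ?_⟩
    · rw [← h1]
      simp only [List.length_cons]
      congr 2
      omega
    · rw [← h2]
      simp only [List.length_cons]
      congr 1
      omega

theorem real_last {g : ℤ} {p : ℕ} {A : Win} (h : W.Real g p A) :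
    (W.i (p + A.dig.length) : ℕ) = last A := by
  obtain ⟨a, l⟩ := A
  obtain ⟨h1, h2⟩ := h
  have key : ∀ (l : List (ℕ × Bool)) (p a : ℕ), (W.i p : ℕ) = a → W.RealD g (p + 1) l →
      (W.i (p + l.length) : ℕ) = (l.getLast?.map Prod.fst).getD a := by
    intro l
    induction l with
    | nil =>
      intro p a h _
      simpa using h
    | cons y l ih =>
      obtain ⟨c, b⟩ := y
      intro p a h h'
      have h3 := ih (p + 1) c h'.1 h'.2.2
      have e : p + ((c, b) :: l).length = p + 1 + l.length := by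
        simp only [List.length_cons]
        omega
      rw [e, h3]
      cases l with
      | nil => simp
      | cons z l =>
        rw [List.getLast?_cons_cons, List.getLast?_eq_some_getLast (List.cons_ne_nil z l)]
        rfl
  exact key l p a h1 h2

/-- the cyclic structure -/
def Cyc (m : ℕ) : Prop :=
  (∀ n, (W.i n : ℕ) < m) ∧
  (∀ n, (W.i (n + 1) : ℕ) = W.i n ∨ (W.i (n + 1) : ℕ) = (W.i n + 1) % m) ∧
  (∀ k, k < m → ∀ N, ∃ p, N ≤ p ∧ (W.i p : ℕ) = k ∧ (W.i (p + 1) : ℕ) = (k + 1) % m)

theorem sign_cases {g x : ℤ} (hg : g = 1 ∨ g = -1) (hx : x = 1 ∨ x = -1) :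
    x = g * bs true ∨ x = g * bs false := by
  rcases hg with rfl | rfl <;> rcases hx with rfl | rfl <;> simp [bs]

theorem leaf_sound {st : List Win} {x : ℕ}
    (hst : ∀ A ∈ st, ∃ g p, (g = 1 ∨ g = -1) ∧ W.Real g p A) (h : leaf st x = true) : False := by
  unfold leaf at h
  split_ifs at h with h0
  · split at h
    · rename_i A B hA hB
      obtain ⟨gA, p, g1, r1⟩ := hst A (List.mem_of_getElem? hA)
      obtain ⟨gB, q, g2, r2⟩ := hst B (List.mem_of_getElem? hB)
      obtain ⟨p', r1'⟩ := W.real_drop (x / 5 / 256 % 8) p A r1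
      obtain ⟨q', r2'⟩ := W.real_drop (x / 5 / 4 % 8) q B r2
      exact W.leaf2_sound g1 g2 r1' r2' (sn_or _) h
    · exact absurd h (by simp)
  · split at h
    · rename_i A B D hA hB hD
      obtain ⟨gA, p, g1, r1⟩ := hst A (List.mem_of_getElem? hA)
      obtain ⟨gB, q, g2, r2⟩ := hst B (List.mem_of_getElem? hB)
      obtain ⟨gD, t, g3, r3⟩ := hst D (List.mem_of_getElem? hD)
      obtain ⟨p', r1'⟩ := W.real_drop (x / 5 / 32768 % 8) p A r1
      obtain ⟨q', r2'⟩ := W.real_drop (x / 5 / 512 % 8) q B r2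
      obtain ⟨t', r3'⟩ := W.real_drop (x / 5 / 8 % 8) t D r3
      exact W.leaf3_sound g1 g2 g3 r1' r2' r3' (sn_or _) (sn_or _) (sn_or _) h
    · exact absurd h (by simp)

theorem go_sound {m : ℕ} (hc : W.Cyc m) : ∀ (n : ℕ) (st : List Win) (xs ys : List ℕ),
    go m n st xs = some ys →
    (∀ A ∈ st, ∃ g p, n ≤ p ∧ (g = 1 ∨ g = -1) ∧ W.Real g p A) → False := by
  obtain ⟨c1, c2, c3⟩ := hc
  intro n
  induction n with
  | zero =>
    intro st xs ys h
    simp [go] at h
  | succ n ih =>
    intro st xs ys h hst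
    have hst' : ∀ A ∈ st, ∃ g p, n ≤ p ∧ (g = 1 ∨ g = -1) ∧ W.Real g p A := by
      intro A hA
      obtain ⟨g, p, h1, h2, h3⟩ := hst A hA
      exact ⟨g, p, by omega, h2, h3⟩
    have hset : ∀ (j : ℕ) (B : Win), (∃ g p, n ≤ p ∧ (g = 1 ∨ g = -1) ∧ W.Real g p B) →
        ∀ A ∈ st.set j B, ∃ g p, n ≤ p ∧ (g = 1 ∨ g = -1) ∧ W.Real g p A := by
      intro j B hB A hA
      rcases List.mem_or_eq_of_mem_set hA with h | h
      · exact hst' A h
      · rw [h]
        exact hB
    cases xs with
    | nil => simp [go] at h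
    | cons x xs =>
      rw [go] at h
      split_ifs at h with h1 h2 h3 h4 h5
      · exact W.leaf_sound (fun A hA => by
          obtain ⟨g, p, _, h4, h5⟩ := hst A hA
          exact ⟨g, p, h4, h5⟩) h2
      · -- forward
        split at h
        · exact absurd h (by simp)
        · rename_i A hA
          obtain ⟨g, p, hp, hg, hr⟩ := hst A (List.mem_of_getElem? hA)
          simp only [Option.bind_eq_some_iff] at h
          obtain ⟨x1, y1, x2, y2, x3, y3, y4⟩ := h
          have hl := W.real_last hr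
          have hf : ∀ (c : ℕ) (b : Bool), (W.i (p + 1 + A.dig.length) : ℕ) = c →
              W.s (p + 1 + A.dig.length) = g * bs b → W.Real g p (fwd A c b) :=
            fun c b h6 h7 => ⟨hr.1, W.realD_append (c, b) _ _ hr.2 h6 h7⟩
          have e : p + A.dig.length + 1 = p + 1 + A.dig.length := by omega
          have h8 := c2 (p + A.dig.length)
          rw [hl, e] at h8
          rcases h8 with h8 | h8 <;>
            rcases sign_cases hg (W.hs (p + 1 + A.dig.length)) with h9 | h9
          · exact ih _ _ _ y1 (hset _ _ ⟨g, p, by omega, hg, hf _ _ h8 h9⟩)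
          · exact ih _ _ _ y2 (hset _ _ ⟨g, p, by omega, hg, hf _ _ h8 h9⟩)
          · exact ih _ _ _ y3 (hset _ _ ⟨g, p, by omega, hg, hf _ _ h8 h9⟩)
          · exact ih _ _ _ y4 (hset _ _ ⟨g, p, by omega, hg, hf _ _ h8 h9⟩)
      · -- backward
        split at h
        · exact absurd h (by simp)
        · rename_i A hA
          obtain ⟨g, p, hp, hg, hr⟩ := hst A (List.mem_of_getElem? hA)
          simp only [Option.bind_eq_some_iff] at h
          obtain ⟨x1, y1, x2, y2, x3, y3, y4⟩ := h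
          obtain ⟨p, rfl⟩ : ∃ p', p = p' + 1 := ⟨p - 1, by omega⟩
          have hf : ∀ (c : ℕ) (b : Bool), (W.i p : ℕ) = c →
              W.s (p + 1) = g * bs b → W.Real g p (bwd A c b) :=
            fun c b h6 h7 => ⟨h6, hr.1, h7, hr.2⟩
          have h8 : (W.i p : ℕ) = A.prev ∨ (W.i p : ℕ) = (A.prev + m - 1) % m := by
            have h9 := c1 p
            rcases c2 p with h8 | h8
            · left
              rw [← h8, hr.1]
            · right
              rw [← hr.1, h8]
              rcases Nat.lt_or_ge (W.i p + 1) m with h10 | h10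
              · rw [Nat.mod_eq_of_lt h10]
                have : (W.i p : ℕ) + 1 + m - 1 = W.i p + m := by omega
                rw [this, Nat.add_mod_right, Nat.mod_eq_of_lt h9]
              · have : (W.i p : ℕ) + 1 = m := by omega
                rw [this, Nat.mod_self, zero_add, Nat.mod_eq_of_lt (by omega)]
                omega
          rcases h8 with h8 | h8 <;> rcases sign_cases hg (W.hs (p + 1)) with h9 | h9
          · exact ih _ _ _ y1 (hset _ _ ⟨g, p, by omega, hg, hf _ _ h8 h9⟩)
          · exact ih _ _ _ y2 (hset _ _ ⟨g, p, by omega, hg, hf _ _ h8 h9⟩)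
          · exact ih _ _ _ y3 (hset _ _ ⟨g, p, by omega, hg, hf _ _ h8 h9⟩)
          · exact ih _ _ _ y4 (hset _ _ ⟨g, p, by omega, hg, hf _ _ h8 h9⟩)
      · -- a new window
        refine ih _ _ _ h ?_
        intro A hA
        rw [List.mem_append, List.mem_singleton] at hA
        rcases hA with hA | hA
        · exact hst' A hA
        · subst hA
          obtain ⟨p, hp, h6, h7⟩ := c3 _ h5 n
          exact ⟨W.s (p + 1), p, hp, W.hs _, h6, h7, by simp [bs], trivial⟩

end Word

end Pool.Agent.Helper41.KW
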