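import Pool.Agent.Helper41.KW.Rules

/-!
# The rule for three places
-/

set_option autoImplicit false

open Finset

namespace Pool.Agent.Helper41.KW

/-- the parity of the number of sets with three prescribed signs -/
theorem card_three (i j k : Fin 6) (a b c : Bool) :
    (C.filter fun w => w i = a ∧ w j = b ∧ w k = c).card % 2 =
      if i ≠ j ∧ j ≠ k ∧ i ≠ k then 1 else 0 := by
  rw [card_filter]
  revert i j k a b c
  decide +kernel

theorem exists_bool {x : ℤ} (hx : x = 1 ∨ x = -1) :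
    ∃ a : Bool, ∀ (w : Fin 6 → Bool) (i : Fin 6), x * sg w i = 1 ↔ w i = a := by
  rcases hx with rfl | rfl
  · refine ⟨true, fun w i => ?_⟩
    rcases h : w i with _ | _ <;> simp [sg, h]
  · refine ⟨false, fun w i => ?_⟩
    rcases h : w i with _ | _ <;> simp [sg, h]

theorem mul_pm {x y : ℤ} (hx : x = 1 ∨ x = -1) (hy : y = 1 ∨ y = -1) : x * y = 1 ∨ x * y = -1 := by
  rcases hx with rfl | rfl <;> rcases hy with rfl | rfl <;> simp

namespace Word

variable (W : Word)

theorem trip3 (p q t : ℕ) {e1 e2 e3 : ℤ} (h1 : e1 = 1 ∨ e1 = -1) (h2 : e2 = 1 ∨ e2 = -1)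
    (h3 : e3 = 1 ∨ e3 = -1) :
    Even (C.filter fun w => W.M < e1 * W.Y p w + e2 * W.Y q w + e3 * W.Y t w).card := by
  rcases h1 with rfl | rfl
  · simp only [one_mul]
    exact W.trip p q t e2 e3 h2 h3
  · have h4 := W.trip p q t (-e2) (-e3) (by omega) (by omega)
    rw [← card_neg] at h4
    have h5 : ∀ w, W.Y p (neg w) + -e2 * W.Y q (neg w) + -e3 * W.Y t (neg w) =
        -1 * W.Y p w + e2 * W.Y q w + e3 * W.Y t w := by
      intro w
      rw [W.anti, W.anti, W.anti]
      ring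
    simp only [h5] at h4
    exact h4

theorem nz3 (p q t : ℕ) {e1 e2 e3 : ℤ} (h1 : e1 = 1 ∨ e1 = -1) (h2 : e2 = 1 ∨ e2 = -1)
    (h3 : e3 = 1 ∨ e3 = -1)
    (h : ∃ w ∈ C, |e1 * W.Y p w + e2 * W.Y q w + e3 * W.Y t w| ≠ W.M) :
    ∀ w ∈ C, e1 * W.Y p w + e2 * W.Y q w + e3 * W.Y t w ≠ W.M := by
  intro w hw h4
  obtain ⟨w', hw', h5⟩ := h
  apply h5
  rcases h1 with rfl | rfl
  · simp only [one_mul] at h4 ⊢
    exact W.nz p q t e2 e3 h2 h3 ⟨w, hw, h4⟩ w' hw'
  · have h6 := W.nz p q t (-e2) (-e3) (by omega) (by omega) ⟨neg w, neg_mem hw, by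
      rw [W.anti, W.anti, W.anti, ← h4]; ring⟩ w' hw'
    rw [← h6, ← abs_neg]
    congr 1
    ring

theorem M_pos : 0 < W.M := by
  have h : ofMask 7 ∈ C := by decide +kernel
  have := W.bd 0 _ h
  have h2 := abs_nonneg (W.Y 0 (ofMask 7))
  omega

/-- The rule for triples. -/
theorem triple_rule (p q t : ℕ) {e1 e2 e3 : ℤ} (h1 : e1 = 1 ∨ e1 = -1) (h2 : e2 = 1 ∨ e2 = -1)
    (h3 : e3 = 1 ∨ e3 = -1)
    (h : ∃ w ∈ C, |e1 * W.Y (p + 1) w + e2 * W.Y (q + 1) w + e3 * W.Y (t + 1) w| ≠ W.M) :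
    (C.filter fun w => sg w (W.i p) * sg w (W.i q) * sg w (W.i t) = -1 ∧
      W.M < e1 * W.Y (p + 1) w + e2 * W.Y (q + 1) w + e3 * W.Y (t + 1) w).card % 2 =
      if W.i p ≠ W.i q ∧ W.i q ≠ W.i t ∧ W.i p ≠ W.i t then 1 else 0 := by
  have hnd := W.nz3 _ _ _ h1 h2 h3 h
  have hF := W.trip3 p q t h1 h2 h3
  have hT := W.trip3 (p + 1) (q + 1) (t + 1) h1 h2 h3
  have hMp := W.M_pos
  set i := W.i p
  set j := W.i q
  set k := W.i t
  have ha : e1 * W.s p = 1 ∨ e1 * W.s p = -1 := mul_pm h1 (W.hs p)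
  have hb : e2 * W.s q = 1 ∨ e2 * W.s q = -1 := mul_pm h2 (W.hs q)
  have hc : e3 * W.s t = 1 ∨ e3 * W.s t = -1 := mul_pm h3 (W.hs t)
  have hstep : ∀ w ∈ C, 2 * (e1 * W.Y p w + e2 * W.Y q w + e3 * W.Y t w) =
      W.M * (e1 * W.s p * sg w i + e2 * W.s q * sg w j + e3 * W.s t * sg w k) +
      (e1 * W.Y (p + 1) w + e2 * W.Y (q + 1) w + e3 * W.Y (t + 1) w) := by
    intro w hw
    have s1 := W.step p w hw
    have s2 := W.step q w hw
    have s3 := W.step t w hw
    calc _ = e1 * (2 * W.Y p w) + e2 * (2 * W.Y q w) + e3 * (2 * W.Y t w) := by ring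
      _ = _ := by rw [s1, s2, s3]; ring
  have hbd : ∀ w ∈ C, |e1 * W.Y (p + 1) w + e2 * W.Y (q + 1) w + e3 * W.Y (t + 1) w| <
      3 * W.M := by
    intro w hw
    have b1 := abs_lt.1 (W.bd (p + 1) w hw)
    have b2 := abs_lt.1 (W.bd (q + 1) w hw)
    have b3 := abs_lt.1 (W.bd (t + 1) w hw)
    rw [abs_lt]
    rcases h1 with rfl | rfl <;> rcases h2 with rfl | rfl <;> rcases h3 with rfl | rfl <;>
      constructor <;> omega
  set α := e1 * W.s p
  set β := e2 * W.s q
  set γ := e3 * W.s t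
  have hanti : ∀ w, e1 * W.Y (p + 1) (neg w) + e2 * W.Y (q + 1) (neg w) +
      e3 * W.Y (t + 1) (neg w) =
      -(e1 * W.Y (p + 1) w + e2 * W.Y (q + 1) w + e3 * W.Y (t + 1) w) := by
    intro w
    rw [W.anti, W.anti, W.anti]
    ring
  generalize hτ : (fun w => e1 * W.Y (p + 1) w + e2 * W.Y (q + 1) w + e3 * W.Y (t + 1) w) = τ
  have hτ' : ∀ w, e1 * W.Y (p + 1) w + e2 * W.Y (q + 1) w + e3 * W.Y (t + 1) w = τ w :=
    fun w => congrFun hτ w
  generalize hG : (fun w => e1 * W.Y p w + e2 * W.Y q w + e3 * W.Y t w) = G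
  have hG' : ∀ w, e1 * W.Y p w + e2 * W.Y q w + e3 * W.Y t w = G w := fun w => congrFun hG w
  simp only [hτ'] at hT hnd hstep hbd hanti ⊢
  simp only [hG'] at hF hstep
  -- the possible values of the leading form
  obtain ⟨a, ha'⟩ := exists_bool ha
  obtain ⟨b, hb'⟩ := exists_bool hb
  obtain ⟨c, hc'⟩ := exists_bool hc
  have pm : ∀ {x : ℤ}, (x = 1 ∨ x = -1) → ∀ w l, x * sg w l = 1 ∨ x * sg w l = -1 := by
    intro x hx w l
    rcases hx with rfl | rfl <;> rcases sg_or w l with h | h <;> simp [h]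
  have hL3 : ∀ w, (α * sg w i = 1 ∧ β * sg w j = 1 ∧ γ * sg w k = 1) ↔
      (w i = a ∧ w j = b ∧ w k = c) := by
    intro w
    rw [ha', hb', hc']
  -- the four numbers
  have n0 : (C.filter fun w => W.M < G w).card =
      (C.filter fun w => (α * sg w i + β * sg w j + γ * sg w k = 3) ∧ -W.M < τ w).card +
      (C.filter fun w => (α * sg w i + β * sg w j + γ * sg w k = 1) ∧ W.M < τ w).card := by
    rw [← Finset.card_union_of_disjoint]
    · congr 1
      ext w
      simp only [mem_filter, mem_union]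
      constructor
      · rintro ⟨hw, h7⟩
        have h8 := hstep w hw
        have h9 := abs_lt.1 (hbd w hw)
        rcases pm ha w i with x1 | x1 <;> rcases pm hb w j with x2 | x2 <;>
          rcases pm hc w k with x3 | x3 <;> rw [x1, x2, x3] at h8 ⊢ <;> norm_num at h8 ⊢ <;>
          first | omega | (refine ⟨hw, ?_⟩; omega)
      · rintro (⟨hw, h7, h8⟩ | ⟨hw, h7, h8⟩) <;> refine ⟨hw, ?_⟩ <;> have h9 := hstep w hw <;>
          rw [h7] at h9 <;> omega
    · rw [Finset.disjoint_left]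
      intro w h7 h8
      rw [mem_filter] at h7 h8
      omega
  have n1 : (C.filter fun w => (α * sg w i + β * sg w j + γ * sg w k = 3)).card =
      (C.filter fun w => (α * sg w i + β * sg w j + γ * sg w k = 3) ∧ -W.M < τ w).card +
      (C.filter fun w => (α * sg w i + β * sg w j + γ * sg w k = -3) ∧ W.M < τ w).card := by
    rw [card_split _ fun w => -W.M < τ w]
    congr 1
    rw [← card_neg]
    congr 1
    ext w
    simp only [mem_filter, sg_neg, hanti]
    refine and_congr_right fun hw => ?_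
    have := hnd w hw
    constructor
    · rintro ⟨h7, h8⟩
      constructor
      · linarith
      · omega
    · rintro ⟨h7, h8⟩
      constructor
      · linarith
      · omega
  have n2 : (C.filter fun w => (α * β * γ * (sg w i * sg w j * sg w k) = -1) ∧ W.M < τ w).card =
      (C.filter fun w => (α * sg w i + β * sg w j + γ * sg w k = 1) ∧ W.M < τ w).card +
      (C.filter fun w => (α * sg w i + β * sg w j + γ * sg w k = -3) ∧ W.M < τ w).card := by
    rw [← Finset.card_union_of_disjoint]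
    · congr 1
      ext w
      simp only [mem_filter, mem_union]
      have e : α * β * γ * (sg w i * sg w j * sg w k) =
          (α * sg w i) * (β * sg w j) * (γ * sg w k) := by ring
      rw [e]
      rcases pm ha w i with x1 | x1 <;> rcases pm hb w j with x2 | x2 <;>
          rcases pm hc w k with x3 | x3 <;> rw [x1, x2, x3] <;> norm_num
    · rw [Finset.disjoint_left]
      intro w h7 h8
      rw [mem_filter] at h7 h8
      omega
  have n3 : (C.filter fun w => (α * sg w i + β * sg w j + γ * sg w k = 3)).card % 2 =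
      if i ≠ j ∧ j ≠ k ∧ i ≠ k then 1 else 0 := by
    rw [← card_three i j k a b c]
    congr 2
    ext w
    simp only [mem_filter]
    refine and_congr_right fun hw => ?_
    rw [← hL3]
    rcases pm ha w i with x1 | x1 <;> rcases pm hb w j with x2 | x2 <;>
          rcases pm hc w k with x3 | x3 <;> rw [x1, x2, x3] <;> norm_num
  have n4 : (C.filter fun w => (α * β * γ * (sg w i * sg w j * sg w k) = -1) ∧
      W.M < τ w).card % 2 = if i ≠ j ∧ j ≠ k ∧ i ≠ k then 1 else 0 := by
    rw [← n3]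
    obtain ⟨x, hx⟩ := hF
    omega
  have hg : α * β * γ = 1 ∨ α * β * γ = -1 := by
    rcases ha with h | h <;> rcases hb with h' | h' <;> rcases hc with h'' | h'' <;>
      rw [h, h', h''] <;> norm_num
  rcases hg with hg | hg
  · rw [hg] at n4
    simp only [one_mul] at n4
    exact n4
  · rw [hg] at n4
    rw [← n4]
    rw [card_split _ fun w => sg w i * sg w j * sg w k = -1] at hT
    have c1 : (C.filter fun w => W.M < τ w ∧ sg w i * sg w j * sg w k = -1) =
        (C.filter fun w => sg w i * sg w j * sg w k = -1 ∧ W.M < τ w) := by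
      ext w
      simp only [mem_filter]
      tauto
    have c2 : (C.filter fun w => W.M < τ w ∧ ¬sg w i * sg w j * sg w k = -1) =
        (C.filter fun w => -1 * (sg w i * sg w j * sg w k) = -1 ∧ W.M < τ w) := by
      ext w
      simp only [mem_filter]
      rcases sg_or w i with x1 | x1 <;> rcases sg_or w j with x2 | x2 <;>
          rcases sg_or w k with x3 | x3 <;> rw [x1, x2, x3] <;> norm_num
    rw [c1, c2] at hT
    obtain ⟨x, hx⟩ := hT
    omega

end Word

end Pool.Agent.Helper41.KW
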