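import Pool.Agent.Helper44.KW.Defs

/-!
# W7: Lipschitz bound for a trigonometric polynomial along windows
-/

set_option autoImplicit false

namespace Pool.Agent.Helper41.KW

open MeasureTheory Set Filter Topology Pool.Agent.Helper78.KD
open Pool.Agent.Helper44.KW (ex win TrigP)

/-- the increments of the members of a family increase with the index -/
theorem incr_succ {u v : ℕ → ℝ → ℝ} {a b β₁ β₂ : ℝ} (hF : Fam u v a b β₁ β₂) (m : ℕ) {x y : ℝ} (hx : x ∈ Icc a b)
    (hy : y ∈ Icc a b) (hxy : x ≤ y) : u m y - u m x ≤ u (m + 1) y - u (m + 1) x := by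
  rcases eq_or_lt_of_le hxy with h | h
  · subst h; simp
  · have hsub : Icc x y ⊆ Icc a b := Icc_subset_Icc hx.1 hy.2
    obtain ⟨c, hc, hc2⟩ := exists_hasDerivAt_eq_slope (fun z => u (m + 1) z - u m z) (fun z => v (m + 1) z - v m z) h
      (fun z hz => ((hF.deriv (m + 1) z (hsub hz)).sub (hF.deriv m z (hsub hz))).continuousAt.continuousWithinAt)
      (fun z hz => (hF.deriv (m + 1) z (hsub (Ioo_subset_Icc_self hz))).sub
        (hF.deriv m z (hsub (Ioo_subset_Icc_self hz))))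
    rw [eq_div_iff (by linarith : y - x ≠ 0)] at hc2
    have hcI : c ∈ Icc a b := hsub (Ioo_subset_Icc_self hc)
    have h1 := (hF.growth m c hcI).1
    have h2 := hF.pos m c hcI
    have h3 : 0 ≤ v (m + 1) c - v m c := by nlinarith [hF.hβ]
    have h4 : 0 ≤ (v (m + 1) c - v m c) * (y - x) := mul_nonneg h3 (by linarith)
    rw [hc2] at h4
    linarith

theorem incr_le {u v : ℕ → ℝ → ℝ} {a b β₁ β₂ : ℝ} (hF : Fam u v a b β₁ β₂) {m m' : ℕ} (hm : m ≤ m') {x y : ℝ}
    (hx : x ∈ Icc a b) (hy : y ∈ Icc a b) (hxy : x ≤ y) : u m y - u m x ≤ u m' y - u m' x := by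
  induction m', hm using Nat.le_induction with
  | base => exact le_rfl
  | succ n _ ih => exact ih.trans (incr_succ hF n hx hy hxy)

theorem incr_nonneg {u v : ℕ → ℝ → ℝ} {a b β₁ β₂ : ℝ} (hF : Fam u v a b β₁ β₂) (m : ℕ) {x y : ℝ} (hx : x ∈ Icc a b)
    (hy : y ∈ Icc a b) (hxy : x ≤ y) : 0 ≤ u m y - u m x := by
  have hsub : Icc x y ⊆ Icc a b := Icc_subset_Icc hx.1 hy.2
  have h : MonotoneOn (u m) (Icc x y) := by
    refine monotoneOn_of_hasDerivWithinAt_nonneg (f' := v m) (convex_Icc x y)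
      (fun z hz => (hF.deriv m z (hsub hz)).continuousAt.continuousWithinAt)
      (fun z hz => (hF.deriv m z (hsub (interior_subset hz))).hasDerivWithinAt)
      (fun z hz => (hF.pos m z (hsub (interior_subset hz))).le)
  have := h ⟨le_rfl, hxy⟩ ⟨hxy, le_rfl⟩ hxy
  linarith

theorem ex_lip (s t : ℝ) : ‖ex s - ex t‖ ≤ 2 * Real.pi * |s - t| := by
  unfold ex
  have e1 : ∀ r : ℝ, (2 * Real.pi * r * Complex.I : ℂ) = ((2 * Real.pi * r : ℝ) : ℂ) * Complex.I := by
    intro r; push_cast; ring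
  rw [e1, e1]
  have h : Complex.exp (((2 * Real.pi * s : ℝ) : ℂ) * Complex.I) - Complex.exp (((2 * Real.pi * t : ℝ) : ℂ) * Complex.I) =
      Complex.exp (((2 * Real.pi * t : ℝ) : ℂ) * Complex.I) *
        (Complex.exp (Complex.I * ((2 * Real.pi * s - 2 * Real.pi * t : ℝ) : ℂ)) - 1) := by
    rw [mul_sub, ← Complex.exp_add, mul_one]
    congr 2
    push_cast
    ring
  rw [h, norm_mul, Complex.norm_exp_ofReal_mul_I, one_mul]
  refine (Real.norm_exp_I_mul_ofReal_sub_one_le).trans ?_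
  rw [← mul_sub, norm_mul, Real.norm_eq_abs, Real.norm_eq_abs, abs_of_pos (by positivity)]

theorem ex_cont : Continuous ex := by
  unfold ex
  fun_prop

/-- W7 -/
theorem win_lip {k : ℕ} {Φ : (Fin k → ℝ) → ℝ} {S : Finset (Fin k → ℤ)} {z : (Fin k → ℤ) → ℂ}
    (hΦ : TrigP k Φ S z) : ∃ K : ℝ, 0 ≤ K ∧ ∀ (u v : ℕ → ℝ → ℝ) (a b β₁ β₂ : ℝ), Fam u v a b β₁ β₂ →
      (∀ n, ContinuousOn (fun x => Φ (win u k n x)) (Icc a b)) ∧
      ∀ (n : ℕ), ∀ x ∈ Icc a b, ∀ y ∈ Icc a b, x ≤ y →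
        |Φ (win u k n x) - Φ (win u k n y)| ≤ K * (u (n + k) y - u (n + k) x) := by
  have hre : ∀ t, Φ t = (∑ h ∈ S, z h * ex (∑ i, (h i : ℝ) * t i)).re := fun t => by
    rw [← hΦ t, Complex.ofReal_re]
  refine ⟨∑ h ∈ S, ‖z h‖ * (2 * Real.pi * ∑ i, |(h i : ℝ)|), by positivity, ?_⟩
  intro u v a b β₁ β₂ hF
  refine ⟨fun n => ?_, fun n x hx y hy hxy => ?_⟩
  · simp only [hre]
    refine Complex.continuous_re.comp_continuousOn (continuousOn_finsetSum _ fun h _ => ?_)
    refine continuousOn_const.mul (ex_cont.comp_continuousOn (continuousOn_finsetSum _ fun i _ => ?_))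
    exact continuousOn_const.mul fun y hy => (hF.deriv (n + i) y hy).continuousAt.continuousWithinAt
  · rw [hre, hre, ← Complex.sub_re, ← Finset.sum_sub_distrib]
    refine (Complex.abs_re_le_norm _).trans ((norm_sum_le _ _).trans ?_)
    rw [Finset.sum_mul]
    refine Finset.sum_le_sum fun h _ => ?_
    rw [← mul_sub, norm_mul, mul_assoc, mul_assoc]
    refine mul_le_mul_of_nonneg_left ((ex_lip _ _).trans ?_) (norm_nonneg _)
    refine mul_le_mul_of_nonneg_left ?_ (by positivity)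
    rw [← Finset.sum_sub_distrib, Finset.sum_mul]
    refine (Finset.abs_sum_le_sum_abs _ _).trans (Finset.sum_le_sum fun i _ => ?_)
    rw [← mul_sub, abs_mul]
    refine mul_le_mul_of_nonneg_left ?_ (abs_nonneg _)
    have h1 := incr_nonneg hF (n + i) hx hy hxy
    have h2 := incr_le hF (show n + (i : ℕ) ≤ n + k by have := i.2; omega) hx hy hxy
    rw [abs_sub_comm]
    show |u (n + i) y - u (n + i) x| ≤ _
    rw [abs_of_nonneg h1]
    exact h2

end Pool.Agent.Helper41.KW
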