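import Mathlib

/-!
# Words of binary digits

A `Word` records the binary expansions of the ten numbers `1 - 2 x_S (2 ^ n h)`, `S` a set of three
of six symbols, in the case in which every digit is a signed symbol: the digit of the set `S` at the
place `n` is `s n` if `i n` is in `S` and `- s n` if not.
-/

set_option autoImplicit false

open Finset

namespace Pool.Agent.Helper41.KW

/-- the twenty sets of three of six symbols, as functions -/
def C : Finset (Fin 6 → Bool) :=
  Finset.univ.filter fun w => (Finset.univ.filter fun a => w a = true).card = 3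

/-- the sign of a symbol in a set -/
def sg (w : Fin 6 → Bool) (a : Fin 6) : ℤ := if w a then 1 else -1

/-- the complement -/
def neg (w : Fin 6 → Bool) : Fin 6 → Bool := fun a => !(w a)

/-- The sequence of digits and of remainders, with the parity conditions for two and for three
places. -/
structure Word where
  /-- the modulus -/
  M : ℤ
  /-- the signs -/
  s : ℕ → ℤ
  /-- the symbols -/
  i : ℕ → Fin 6
  /-- the remainders -/
  Y : ℕ → (Fin 6 → Bool) → ℤ
  /-- a period -/
  d : ℕ
  hs : ∀ n, s n = 1 ∨ s n = -1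
  hd : 0 < d
  per : ∀ n, i (n + d) = i n
  anti : ∀ n w, Y n (neg w) = -Y n w
  bd : ∀ n, ∀ w ∈ C, |Y n w| < M
  step : ∀ n, ∀ w ∈ C, 2 * Y n w = M * (s n * sg w (i n)) + Y (n + 1) w
  pair : ∀ (x : Fin 6) (p q : ℕ) (e : ℤ), (e = 1 ∨ e = -1) →
    Even (C.filter fun w => w x = true ∧ Y p w + e * Y q w < 0).card
  trip : ∀ (p q t : ℕ) (e e' : ℤ), (e = 1 ∨ e = -1) → (e' = 1 ∨ e' = -1) →
    Even (C.filter fun w => M < Y p w + e * Y q w + e' * Y t w).card
  nz : ∀ (p q t : ℕ) (e e' : ℤ), (e = 1 ∨ e = -1) → (e' = 1 ∨ e' = -1) →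
    (∃ w ∈ C, Y p w + e * Y q w + e' * Y t w = M) →
    ∀ w ∈ C, |Y p w + e * Y q w + e' * Y t w| = M

end Pool.Agent.Helper41.KW
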